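import Mathlib

/-!
# MP_ce98c0_co: digraphs with parallel arcs

A digraph is given by a type `V` of vertices, a type `A` of arcs and the tail `src a` and the head `tgt a` of
every arc `a`.
-/

set_option autoImplicit false

namespace Pool.Agent.Lib.MP_ce98c0_co

variable {V A : Type*}

/-- the spanning sub-digraph with arc set `S` is strongly connected -/
def StronglyConnected (src tgt : A → V) (S : Set A) : Prop :=
  ∀ u v : V, Relation.ReflTransGen (fun x y => ∃ a ∈ S, src a = x ∧ tgt a = y) u v

/-- the spanning sub-digraph with arc set `S` is weakly connected -/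
def WeaklyConnected (src tgt : A → V) (S : Set A) : Prop :=
  ∀ u v : V, Relation.ReflTransGen
    (fun x y => ∃ a ∈ S, (src a = x ∧ tgt a = y) ∨ (src a = y ∧ tgt a = x)) u v

/-- `k`-arc-connected: strongly connected after the deletion of any set of at most `k - 1` arcs -/
def ArcConnected (k : ℕ) (src tgt : A → V) : Prop :=
  ∀ F : Finset A, F.card ≤ k - 1 → StronglyConnected src tgt {a | a ∉ F}

/-- the arcs can be partitioned into the arc set of a strongly connected spanning sub-digraph and the arc set of a
weakly connected spanning sub-digraph -/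
def Decomposable (src tgt : A → V) : Prop :=
  ∃ A₁ A₂ : Set A, A₁ ∪ A₂ = Set.univ ∧ A₁ ∩ A₂ = ∅ ∧ StronglyConnected src tgt A₁ ∧
    WeaklyConnected src tgt A₂

/-- A tree decomposition of the underlying graph: every vertex is in a bag, the ends of every arc are together in a
bag, and if the node `l` is on the path from `i` to `j` in the tree then `bag i ∩ bag j ⊆ bag l`. -/
structure TreeDecomposition (src tgt : A → V) where
  /-- the nodes of the tree -/
  node : Type
  /-- the tree -/
  tree : SimpleGraph node
  isTree : tree.IsTree
  /-- the bags -/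
  bag : node → Set V
  vertex_mem : ∀ v : V, ∃ i, v ∈ bag i
  arc_mem : ∀ a : A, ∃ i, src a ∈ bag i ∧ tgt a ∈ bag i
  path_mem : ∀ (i j : node) (p : tree.Walk i j), p.IsPath → ∀ l ∈ p.support, bag i ∩ bag j ⊆ bag l

/-- the vertices of `S` are pairwise non-adjacent in the underlying graph -/
def Independent (src tgt : A → V) (S : Finset V) : Prop :=
  ∀ a : A, src a ∈ S → tgt a ∈ S → src a = tgt a

end Pool.Agent.Lib.MP_ce98c0_co
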