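import Pool.Agent.Lib.MP_ce98c0_co.Split

/-!
# MP_ce98c0_co: elimination of a vertex and merging of classes

`c` is a partition into classes (labels).  `Good W m c`: there is a set `T` of arcs between different
classes (at most one from `x` to `y`) that connects the classes and whose complement is strong.
-/

set_option autoImplicit false

namespace Pool.Agent.Lib.MP_ce98c0_co

open Finset

variable {V : Type*} [DecidableEq V]

/-- there is a set `T` of arcs between different classes that connects the classes and whose complement is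
strong -/
def Good (W : Finset V) (m : V → V → ℕ) (c : V → V) : Prop :=
  ∃ T : V → V → Prop, (∀ x y, T x y → x ∈ W ∧ y ∈ W ∧ c x ≠ c y ∧ 1 ≤ m x y) ∧
    (∀ X ⊆ W, X.Nonempty → X ≠ W → ∃ x ∈ X, ∃ y ∈ W, y ∉ X ∧ 1 ≤ m x y ∧ (T x y → 2 ≤ m x y)) ∧
    (∀ X ⊆ W, X.Nonempty → X ≠ W → (∀ x ∈ W, ∀ y ∈ W, c x = c y → (x ∈ X ↔ y ∈ X)) →
      ∃ x ∈ X, ∃ y ∈ W, y ∉ X ∧ (T x y ∨ T y x))

/-- redundancy of the arcs into `v` -/
def InData (W : Finset V) (m : V → V → ℕ) (c : V → V) (v x₁ x₂ : V) : Prop :=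
  x₁ ∈ W ∧ x₂ ∈ W ∧ x₁ ≠ v ∧ x₂ ≠ v ∧ 1 ≤ m x₁ v ∧ 1 ≤ m x₂ v ∧ c x₁ = c x₂ ∧
    (c x₂ = c v ∨ (x₁ = x₂ ∧ 2 ≤ m x₂ v) ∨ (x₁ ≠ x₂ ∧ 1 ≤ m x₁ x₂))

/-- redundancy of the arcs out of `v` -/
def OutData (W : Finset V) (m : V → V → ℕ) (c : V → V) (v z₁ z₂ : V) : Prop :=
  z₁ ∈ W ∧ z₂ ∈ W ∧ z₁ ≠ v ∧ z₂ ≠ v ∧ 1 ≤ m v z₁ ∧ 1 ≤ m v z₂ ∧ c z₁ = c z₂ ∧
    (c z₂ = c v ∨ (z₁ = z₂ ∧ 2 ≤ m v z₂) ∨ (z₁ ≠ z₂ ∧ 1 ≤ m z₂ z₁))

theorem dOut_erase {W : Finset V} {v : V} (hv : v ∈ W) (m : V → V → ℕ) {X : Finset V}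
    (hX : X ⊆ W.erase v) :
    dOut W m X = dOut (W.erase v) m X + wt (W.erase v) (fun x => m x v) X := by
  have hvX : v ∉ X := fun h => (Finset.mem_erase.mp (hX h)).1 rfl
  unfold dOut wt
  rw [← Finset.add_sum_erase W _ hv]
  have h0 : (∑ y ∈ W, if v ∈ X ∧ y ∉ X then m v y else 0) = 0 :=
    Finset.sum_eq_zero fun y _ => by simp [hvX]
  rw [h0, zero_add, ← Finset.sum_add_distrib]
  refine Finset.sum_congr rfl fun x _ => ?_
  rw [← Finset.add_sum_erase W _ hv, add_comm]
  congr 1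
  simp [hvX]

theorem dIn_erase {W : Finset V} {v : V} (hv : v ∈ W) (m : V → V → ℕ) {X : Finset V}
    (hX : X ⊆ W.erase v) :
    dIn W m X = dIn (W.erase v) m X + wt (W.erase v) (fun y => m v y) X := by
  have hvX : v ∉ X := fun h => (Finset.mem_erase.mp (hX h)).1 rfl
  unfold dIn wt
  rw [← Finset.add_sum_erase W _ hv]
  have h0 : (∑ y ∈ W, if v ∉ X ∧ y ∈ X then m v y else 0) =
      ∑ y ∈ W.erase v, if y ∈ X then m v y else 0 := by
    rw [← Finset.add_sum_erase W _ hv]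
    simp [hvX]
  rw [h0, add_comm]
  congr 1
  refine Finset.sum_congr rfl fun x _ => ?_
  rw [← Finset.add_sum_erase W _ hv]
  simp [hvX]

/-- Elimination of a vertex `v`. -/
theorem elim {k : ℕ} (W : Finset V) (m : V → V → ℕ) (c : V → V) (hk : CutConn k W m) {v : V}
    (hv : v ∈ W) {x₁ x₂ z₁ z₂ : V} (hI : InData W m c v x₁ x₂) (hO : OutData W m c v z₁ z₂) :
    ∃ w : V → V → ℕ, (∀ x ∈ W.erase v, ∀ y ∈ W.erase v, 1 ≤ w x y → 1 ≤ m x v ∧ 1 ≤ m v y) ∧
      CutConn k (W.erase v) (fun x y => m x y + w x y) ∧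
      (Good (W.erase v) (fun x y => m x y + w x y) c → Good W m c) := by
  classical
  obtain ⟨hx₁, hx₂, hx₁v, hx₂v, hmx₁, hmx₂, hcx, hI'⟩ := hI
  obtain ⟨hz₁, hz₂, hz₁v, hz₂v, hmz₁, hmz₂, hcz, hO'⟩ := hO
  have hx₁W : x₁ ∈ W.erase v := Finset.mem_erase.mpr ⟨hx₁v, hx₁⟩
  have hx₂W : x₂ ∈ W.erase v := Finset.mem_erase.mpr ⟨hx₂v, hx₂⟩
  have hz₁W : z₁ ∈ W.erase v := Finset.mem_erase.mpr ⟨hz₁v, hz₁⟩
  have hz₂W : z₂ ∈ W.erase v := Finset.mem_erase.mpr ⟨hz₂v, hz₂⟩
  set W' := W.erase v with hW'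
  have hW'W : W' ⊆ W := Finset.erase_subset v W
  set sa := ∑ x ∈ W', m x v with hsa
  set sb := ∑ y ∈ W', m v y with hsb
  -- the balanced weights
  set a : V → ℕ := fun x => m x v + (sb - sa) * one1 x₂ x with ha
  set b : V → ℕ := fun y => m v y + (sa - sb) * one1 z₂ y with hb
  have hsuma : ∑ x ∈ W', a x = sa + (sb - sa) := by
    rw [ha, Finset.sum_add_distrib, ← Finset.mul_sum, sum_one hx₂W, mul_one]
  have hsumb : ∑ x ∈ W', b x = sb + (sa - sb) := by
    rw [hb, Finset.sum_add_distrib, ← Finset.mul_sum, sum_one hz₂W, mul_one]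
  have hwa : ∀ X, wt W' (fun x => m x v) X ≤ wt W' a X := by
    intro X
    rw [ha, wt_add]
    exact Nat.le_add_right _ _
  have hwb : ∀ X, wt W' (fun x => m v x) X ≤ wt W' b X := by
    intro X
    rw [hb, wt_add]
    exact Nat.le_add_right _ _
  have hneW : ∀ X ⊆ W', X ≠ W := by
    intro X hX h
    have : v ∈ X := by rw [h]; exact hv
    exact (Finset.mem_erase.mp (hX this)).1 rfl
  obtain ⟨w, hw1, hw2, hw3⟩ := split k W' (sa + (sb - sa)) m a b hsuma (by rw [hsumb]; omega) (by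
    intro X hX h1 h2
    have h3 : k ≤ dIn W m X := by
      rw [dIn_eq W m (hX.trans hW'W)]
      apply hk _ Finset.sdiff_subset
      · rw [Finset.sdiff_nonempty]
        intro h
        exact hneW X hX (Finset.Subset.antisymm (hX.trans hW'W) h)
      · intro h
        obtain ⟨x, hx⟩ := h1
        have : x ∈ W \ X := by rw [h]; exact hW'W (hX hx)
        exact (Finset.mem_sdiff.mp this).2 hx
    rw [dIn_erase hv m hX, ← hW'] at h3
    exact le_trans h3 (Nat.add_le_add_left (hwb X) _)) (by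
    intro X hX h1 h2
    have h3 := hk X (hX.trans hW'W) h1 (hneW X hX)
    rw [dOut_erase hv m hX, ← hW'] at h3
    exact le_trans h3 (Nat.add_le_add_left (hwa X) _))
  have hwx : ∀ x ∈ W', ∀ y ∈ W', w x y ≤ a x := by
    intro x hx y hy
    rw [← hw1 x hx]
    exact Finset.single_le_sum (f := fun y => w x y) (fun _ _ => Nat.zero_le _) hy
  have hwy : ∀ x ∈ W', ∀ y ∈ W', w x y ≤ b y := by
    intro x hx y hy
    rw [← hw2 y hy]
    exact Finset.single_le_sum (f := fun x => w x y) (fun _ _ => Nat.zero_le _) hx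
  have ha1 : ∀ x, 1 ≤ a x → 1 ≤ m x v := by
    intro x hx
    rw [ha] at hx
    by_cases h : x = x₂
    · rw [h]; exact hmx₂
    · simp [one1, h] at hx
      omega
  have hb1 : ∀ y, 1 ≤ b y → 1 ≤ m v y := by
    intro y hy
    rw [hb] at hy
    by_cases h : y = z₂
    · rw [h]; exact hmz₂
    · simp [one1, h] at hy
      omega
  have ha2 : ∀ x, x ≠ x₂ → a x = m x v := by
    intro x hx
    simp [ha, one1, hx]
  have hb2 : ∀ y, y ≠ z₂ → b y = m v y := by
    intro y hy
    simp [hb, one1, hy]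
  refine ⟨w, ?_, hw3, ?_⟩
  · intro x hx y hy h
    exact ⟨ha1 x (le_trans h (hwx x hx y hy)), hb1 y (le_trans h (hwy x hx y hy))⟩
  rintro ⟨T', hT'1, hT'2, hT'3⟩
  -- the split arcs in `T'`
  let F : V → V → Prop := fun x y => T' x y ∧ m x y = 0
  have hF : ∀ x y, F x y → x ∈ W' ∧ y ∈ W' ∧ c x ≠ c y ∧ 1 ≤ w x y := by
    rintro x y ⟨h1, h2⟩
    obtain ⟨h3, h4, h5, h6⟩ := hT'1 x y h1
    beta_reduce at h6
    exact ⟨h3, h4, h5, by omega⟩
  let Tin : V → Prop := fun x => c x ≠ c v ∧ (x = x₁ ∨ (x ≠ x₂ ∧ ∃ z, F x z))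
  let Tout : V → Prop := fun z => c z ≠ c v ∧ (z = z₁ ∨ (z ≠ z₂ ∧ ∃ x, F x z))
  let T : V → V → Prop := fun x y =>
    (T' x y ∧ 1 ≤ m x y) ∨ (y = v ∧ Tin x) ∨ (x = v ∧ Tout y)
  have hTin : ∀ x, Tin x → x ∈ W' ∧ 1 ≤ m x v := by
    rintro x ⟨-, h1 | ⟨h1, z, h2⟩⟩
    · rw [h1]; exact ⟨hx₁W, hmx₁⟩
    · obtain ⟨h3, h4, h5, h6⟩ := hF x z h2
      exact ⟨h3, ha1 x (le_trans h6 (hwx x h3 z h4))⟩
  have hTout : ∀ z, Tout z → z ∈ W' ∧ 1 ≤ m v z := by
    rintro z ⟨-, h1 | ⟨h1, x, h2⟩⟩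
    · rw [h1]; exact ⟨hz₁W, hmz₁⟩
    · obtain ⟨h3, h4, h5, h6⟩ := hF x z h2
      exact ⟨h4, hb1 z (le_trans h6 (hwy x h3 z h4))⟩
  have hvW' : v ∉ W' := Finset.notMem_erase v W
  have hTv : ∀ x ∈ W', (T x v ↔ Tin x) := by
    intro x hx
    constructor
    · rintro (⟨h1, -⟩ | ⟨-, h1⟩ | ⟨h1, -⟩)
      · exact absurd (hT'1 x v h1).2.1 hvW'
      · exact h1
      · rw [h1] at hx
        exact absurd hx hvW'
    · intro h
      exact Or.inr (Or.inl ⟨rfl, h⟩)
  have hvT : ∀ z ∈ W', (T v z ↔ Tout z) := by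
    intro z hz
    constructor
    · rintro (⟨h1, -⟩ | ⟨h1, -⟩ | ⟨-, h1⟩)
      · exact absurd (hT'1 v z h1).1 hvW'
      · rw [h1] at hz
        exact absurd hz hvW'
      · exact h1
    · intro h
      exact Or.inr (Or.inr ⟨rfl, h⟩)
  have hTT : ∀ x ∈ W', ∀ y ∈ W', (T x y ↔ T' x y ∧ 1 ≤ m x y) := by
    intro x hx y hy
    constructor
    · rintro (h1 | ⟨h1, -⟩ | ⟨h1, -⟩)
      · exact h1
      · rw [h1] at hy
        exact absurd hy hvW'
      · rw [h1] at hx
        exact absurd hx hvW'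
    · exact fun h => Or.inl h
  have hTc : ∀ x y, T x y → c x ≠ c y := by
    rintro x y (⟨h1, -⟩ | ⟨h1, h2, -⟩ | ⟨h1, h2, -⟩)
    · exact (hT'1 x y h1).2.2.1
    · rw [h1]; exact h2
    · rw [h1]; exact fun h => h2 h.symm
  -- the protected arcs
  have hprot_in : T x₂ v → 2 ≤ m x₂ v := by
    intro h
    rw [hTv x₂ hx₂W] at h
    obtain ⟨h1, h2 | ⟨h2, -⟩⟩ := h
    · rcases hI' with h3 | h3 | h3
      · exact absurd h3 h1
      · exact h3.2
      · exact absurd h2.symm h3.1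
    · exact absurd rfl h2
  have hprot_out : T v z₂ → 2 ≤ m v z₂ := by
    intro h
    rw [hvT z₂ hz₂W] at h
    obtain ⟨h1, h2 | ⟨h2, -⟩⟩ := h
    · rcases hO' with h3 | h3 | h3
      · exact absurd h3 h1
      · exact h3.2
      · exact absurd h2.symm h3.1
    · exact absurd rfl h2
  refine ⟨T, ?_, ?_, ?_⟩
  · rintro x y (⟨h1, h2⟩ | ⟨h1, h2⟩ | ⟨h1, h2⟩)
    · obtain ⟨h3, h4, h5, h6⟩ := hT'1 x y h1
      exact ⟨hW'W h3, hW'W h4, h5, h2⟩
    · subst h1
      exact ⟨hW'W (hTin x h2).1, hv, h2.1, (hTin x h2).2⟩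
    · subst h1
      exact ⟨hv, hW'W (hTout y h2).1, fun h => h2.1 h.symm, (hTout y h2).2⟩
  · -- the complement is strong
    intro X hXW hXne hXW'
    by_cases hX1 : X.erase v = ∅
    · -- `X = {v}`
      have hXv : X = {v} := by
        obtain ⟨x, hx⟩ := hXne
        have : x = v := by
          by_contra h
          have : x ∈ X.erase v := Finset.mem_erase.mpr ⟨h, hx⟩
          rw [hX1] at this
          exact absurd this (Finset.notMem_empty x)
        subst this
        apply Finset.Subset.antisymm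
        · intro y hy
          by_contra h
          have : y ∈ X.erase x := Finset.mem_erase.mpr ⟨fun h' => h (by rw [h']; exact Finset.mem_singleton_self x), hy⟩
          rw [hX1] at this
          exact absurd this (Finset.notMem_empty y)
        · intro y hy
          rw [Finset.mem_singleton] at hy
          rw [hy]; exact hx
      refine ⟨v, by rw [hXv]; exact Finset.mem_singleton_self v, z₂, hz₂, ?_, hmz₂, hprot_out⟩
      rw [hXv, Finset.mem_singleton]
      exact hz₂v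
    by_cases hX2 : X.erase v = W'
    · -- `X = W'`
      have hvX : v ∉ X := by
        intro h
        apply hXW'
        apply Finset.Subset.antisymm hXW
        intro y hy
        by_cases hyv : y = v
        · rw [hyv]; exact h
        · have : y ∈ X.erase v := by rw [hX2]; exact Finset.mem_erase.mpr ⟨hyv, hy⟩
          exact (Finset.mem_erase.mp this).2
      refine ⟨x₂, ?_, v, hv, hvX, hmx₂, hprot_in⟩
      have : x₂ ∈ X.erase v := by rw [hX2]; exact hx₂W
      exact (Finset.mem_erase.mp this).2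
    obtain ⟨x, hx, z, hz, hzX, hmxz, hTxz⟩ := hT'2 (X.erase v)
      (Finset.erase_subset_erase v hXW) (Finset.nonempty_iff_ne_empty.mpr hX1) hX2
    beta_reduce at hmxz hTxz
    have hxv : x ≠ v := (Finset.mem_erase.mp hx).1
    have hxX : x ∈ X := (Finset.mem_erase.mp hx).2
    have hxW' : x ∈ W' := Finset.mem_erase.mpr ⟨hxv, hXW hxX⟩
    have hzv : z ≠ v := (Finset.mem_erase.mp hz).1
    have hzX' : z ∉ X := fun h => hzX (Finset.mem_erase.mpr ⟨hzv, h⟩)
    have hzW : z ∈ W := hW'W hz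
    by_cases hdir : 1 ≤ m x z ∧ (T x z → 2 ≤ m x z)
    · exact ⟨x, hxX, z, hzW, hzX', hdir.1, hdir.2⟩
    -- the arc is a split arc
    have hw : 1 ≤ w x z ∧ (F x z → 2 ≤ w x z) := by
      by_cases h0 : m x z = 0
      · refine ⟨by omega, ?_⟩
        intro h
        have := hTxz h.1
        omega
      · have h1 : 1 ≤ m x z := Nat.pos_of_ne_zero h0
        have h2 : T x z ∧ ¬ 2 ≤ m x z := by
          by_contra h
          apply hdir
          refine ⟨h1, fun h3 => ?_⟩
          by_contra h4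
          exact h ⟨h3, h4⟩
        have h3 := hTxz ((hTT x hxW' z hz).mp h2.1).1
        refine ⟨by omega, ?_⟩
        intro h
        exact absurd h.2 h0
    have hax : 1 ≤ a x := le_trans hw.1 (hwx x hxW' z hz)
    have hbz : 1 ≤ b z := le_trans hw.1 (hwy x hxW' z hz)
    have hmxv : 1 ≤ m x v := ha1 x hax
    have hmvz : 1 ≤ m v z := hb1 z hbz
    by_cases hvX : v ∈ X
    · -- an arc from `v` to outside
      by_cases hd : T v z → 2 ≤ m v z
      · exact ⟨v, hvX, z, hzW, hzX', hmvz, hd⟩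
      push Not at hd
      obtain ⟨hd1, hd2⟩ := hd
      rw [hvT z hz] at hd1
      obtain ⟨hd1, hd3 | ⟨hd3, x', hFz⟩⟩ := hd1
      · -- `z = z₁`
        rcases hO' with h3 | h3 | h3
        · rw [← hcz, ← hd3] at h3
          exact absurd h3 hd1
        · rw [← h3.1, ← hd3] at h3
          omega
        · -- `z₂ → z₁`
          by_cases hz₂X : z₂ ∈ X
          · refine ⟨z₂, hz₂X, z, hzW, hzX', by rw [hd3]; exact h3.2, ?_⟩
            intro h
            exact absurd (by rw [hd3]; exact hcz.symm) (hTc z₂ z h)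
          · exact ⟨v, hvX, z₂, hz₂, hz₂X, hmz₂, hprot_out⟩
      · -- contradiction: only one split arc at `z`
        exfalso
        have h1 : b z = m v z := hb2 z hd3
        obtain ⟨h2, -, -, h3⟩ := hF x' z hFz
        have h4 : x' = x := by
          by_contra hne
          have h5 : w x' z + w x z ≤ ∑ x ∈ W', w x z := by
            rw [← Finset.sum_pair (f := fun x => w x z) hne]
            apply Finset.sum_le_sum_of_subset
            intro y hy
            rw [Finset.mem_insert, Finset.mem_singleton] at hy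
            rcases hy with rfl | rfl
            · exact h2
            · exact hxW'
          rw [hw2 z hz] at h5
          omega
        rw [h4] at hFz
        have h5 := hw.2 hFz
        have h6 := hwy x hxW' z hz
        omega
    · -- an arc from `x` to `v`
      by_cases hd : T x v → 2 ≤ m x v
      · exact ⟨x, hxX, v, hv, hvX, hmxv, hd⟩
      push Not at hd
      obtain ⟨hd1, hd2⟩ := hd
      rw [hTv x hxW'] at hd1
      obtain ⟨hd1, hd3 | ⟨hd3, z', hFx⟩⟩ := hd1
      · rcases hI' with h3 | h3 | h3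
        · rw [← hcx, ← hd3] at h3
          exact absurd h3 hd1
        · rw [← h3.1, ← hd3] at h3
          omega
        · by_cases hx₂X : x₂ ∈ X
          · exact ⟨x₂, hx₂X, v, hv, hvX, hmx₂, hprot_in⟩
          · refine ⟨x, hxX, x₂, hx₂, hx₂X, by rw [hd3]; exact h3.2, ?_⟩
            intro h
            exact absurd (by rw [hd3]; exact hcx) (hTc x x₂ h)
      · exfalso
        have h1 : a x = m x v := ha2 x hd3
        obtain ⟨-, h2, -, h3⟩ := hF x z' hFx
        have h4 : z' = z := by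
          by_contra hne
          have h5 : w x z' + w x z ≤ ∑ y ∈ W', w x y := by
            rw [← Finset.sum_pair (f := fun y => w x y) hne]
            apply Finset.sum_le_sum_of_subset
            intro y hy
            rw [Finset.mem_insert, Finset.mem_singleton] at hy
            rcases hy with rfl | rfl
            · exact h2
            · exact hz
          rw [hw1 x hxW'] at h5
          omega
        rw [h4] at hFx
        have h5 := hw.2 hFx
        have h6 := hwx x hxW' z hz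
        omega
  · -- `T` connects the classes
    intro X hXW hXne hXW' hcl
    -- the case of a singleton class
    have hsing : (∀ y ∈ W', c y ≠ c v) → T x₁ v := by
      intro h
      rw [hTv x₁ hx₁W]
      exact ⟨h x₁ hx₁W, Or.inl rfl⟩
    by_cases hX1 : X.erase v = ∅
    · have hXv : ∀ y, y ∈ X → y = v := by
        intro y hy
        by_contra h
        have : y ∈ X.erase v := Finset.mem_erase.mpr ⟨h, hy⟩
        rw [hX1] at this
        exact absurd this (Finset.notMem_empty y)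
      have hvX : v ∈ X := by
        obtain ⟨x, hx⟩ := hXne
        rw [← hXv x hx]; exact hx
      have h1 : ∀ y ∈ W', c y ≠ c v := by
        intro y hy h
        have := (hcl y (hW'W hy) v hv h).mpr hvX
        exact (Finset.mem_erase.mp hy).1 (hXv y this)
      exact ⟨v, hvX, x₁, hx₁, fun h => hx₁v (hXv x₁ h), Or.inr (hsing h1)⟩
    by_cases hX2 : X.erase v = W'
    · have hvX : v ∉ X := by
        intro h
        apply hXW'
        apply Finset.Subset.antisymm hXW
        intro y hy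
        by_cases hyv : y = v
        · rw [hyv]; exact h
        · have : y ∈ X.erase v := by rw [hX2]; exact Finset.mem_erase.mpr ⟨hyv, hy⟩
          exact (Finset.mem_erase.mp this).2
      have hall : ∀ y ∈ W', y ∈ X := by
        intro y hy
        rw [← hX2] at hy
        exact (Finset.mem_erase.mp hy).2
      have h1 : ∀ y ∈ W', c y ≠ c v := by
        intro y hy h
        exact hvX ((hcl y (hW'W hy) v hv h).mp (hall y hy))
      exact ⟨x₁, hall x₁ hx₁W, v, hv, hvX, Or.inl (hsing h1)⟩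
    obtain ⟨x, hx, y, hy, hyX, hTxy⟩ := hT'3 (X.erase v)
      (Finset.erase_subset_erase v hXW) (Finset.nonempty_iff_ne_empty.mpr hX1) hX2 (by
        intro p hp q hq h
        have := hcl p (hW'W hp) q (hW'W hq) h
        simp only [Finset.mem_erase]
        rw [this]
        exact ⟨fun h => ⟨(Finset.mem_erase.mp hq).1, h.2⟩, fun h => ⟨(Finset.mem_erase.mp hp).1, h.2⟩⟩)
    have hxv : x ≠ v := (Finset.mem_erase.mp hx).1
    have hxX : x ∈ X := (Finset.mem_erase.mp hx).2
    have hxW' : x ∈ W' := Finset.mem_erase.mpr ⟨hxv, hXW hxX⟩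
    have hyv : y ≠ v := (Finset.mem_erase.mp hy).1
    have hyX' : y ∉ X := fun h => hyX (Finset.mem_erase.mpr ⟨hyv, h⟩)
    have hyW : y ∈ W := hW'W hy
    -- an attached vertex `p`, as a tail of a split arc
    have htail : ∀ p q, F p q → c p ≠ c v → ∃ p' ∈ W', c p' = c p ∧ T p' v := by
      intro p q hpq hc
      obtain ⟨h1, h2, h3, h4⟩ := hF p q hpq
      by_cases hp : p = x₂
      · refine ⟨x₁, hx₁W, by rw [hp]; exact hcx, ?_⟩
        rw [hTv x₁ hx₁W]
        refine ⟨?_, Or.inl rfl⟩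
        rw [hcx, ← hp]; exact hc
      · refine ⟨p, h1, rfl, ?_⟩
        rw [hTv p h1]
        exact ⟨hc, Or.inr ⟨hp, q, hpq⟩⟩
    have hhead : ∀ p q, F p q → c q ≠ c v → ∃ q' ∈ W', c q' = c q ∧ T v q' := by
      intro p q hpq hc
      obtain ⟨h1, h2, h3, h4⟩ := hF p q hpq
      by_cases hp : q = z₂
      · refine ⟨z₁, hz₁W, by rw [hp]; exact hcz, ?_⟩
        rw [hvT z₁ hz₁W]
        refine ⟨?_, Or.inl rfl⟩
        rw [hcz, ← hp]; exact hc
      · refine ⟨q, h2, rfl, ?_⟩
        rw [hvT q h2]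
        exact ⟨hc, Or.inr ⟨hp, p, hpq⟩⟩
    by_cases hvX : v ∈ X
    · -- attach `y`
      have hcy : c y ≠ c v := fun h => hyX' ((hcl y hyW v hv h).mpr hvX)
      rcases hTxy with hTxy | hTxy
      · by_cases hm : 1 ≤ m x y
        · exact ⟨x, hxX, y, hyW, hyX', Or.inl ((hTT x hxW' y hy).mpr ⟨hTxy, hm⟩)⟩
        · obtain ⟨q, hq, hcq, hTq⟩ := hhead x y ⟨hTxy, by omega⟩ hcy
          refine ⟨v, hvX, q, hW'W hq, ?_, Or.inl hTq⟩
          intro h
          exact hyX' ((hcl q (hW'W hq) y hyW hcq).mp h)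
      · by_cases hm : 1 ≤ m y x
        · exact ⟨x, hxX, y, hyW, hyX', Or.inr ((hTT y hy x hxW').mpr ⟨hTxy, hm⟩)⟩
        · obtain ⟨q, hq, hcq, hTq⟩ := htail y x ⟨hTxy, by omega⟩ hcy
          refine ⟨v, hvX, q, hW'W hq, ?_, Or.inr hTq⟩
          intro h
          exact hyX' ((hcl q (hW'W hq) y hyW hcq).mp h)
    · -- attach `x`
      have hcx' : c x ≠ c v := fun h => hvX ((hcl x (hXW hxX) v hv h).mp hxX)
      rcases hTxy with hTxy | hTxy
      · by_cases hm : 1 ≤ m x y
        · exact ⟨x, hxX, y, hyW, hyX', Or.inl ((hTT x hxW' y hy).mpr ⟨hTxy, hm⟩)⟩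
        · obtain ⟨q, hq, hcq, hTq⟩ := htail x y ⟨hTxy, by omega⟩ hcx'
          exact ⟨q, (hcl q (hW'W hq) x (hXW hxX) hcq).mpr hxX, v, hv, hvX, Or.inl hTq⟩
      · by_cases hm : 1 ≤ m y x
        · exact ⟨x, hxX, y, hyW, hyX', Or.inr ((hTT y hy x hxW').mpr ⟨hTxy, hm⟩)⟩
        · obtain ⟨q, hq, hcq, hTq⟩ := hhead y x ⟨hTxy, by omega⟩ hcx'
          exact ⟨q, (hcl q (hW'W hq) x (hXW hxX) hcq).mpr hxX, v, hv, hvX, Or.inr hTq⟩

end Pool.Agent.Lib.MP_ce98c0_co
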