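import Pool.Agent.Lib.MP_ce98c0_co.Merge

/-!
# MP_ce98c0_co: the induction, for a family of bags with simplicial vertices
-/

set_option autoImplicit false

namespace Pool.Agent.Lib.MP_ce98c0_co

open Finset

variable {V : Type*} [DecidableEq V]

/-- every nonempty set of vertices has a vertex all of whose partners (vertices sharing a bag with it) lie in
one bag -/
def Simp {ι : Type*} (B : ι → Set V) : Prop :=
  ∀ W : Finset V, W.Nonempty → ∃ v ∈ W, ∃ i, v ∈ B i ∧ ∀ u ∈ W, (∃ j, u ∈ B j ∧ v ∈ B j) → u ∈ B i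

/-- transversal of the classes -/
theorem exists_transversal (β : Finset V) (c : V → V) :
    ∃ Z ⊆ β, Set.InjOn c (Z : Set V) ∧ Z.card = (β.image c).card := by
  classical
  have hex : ∀ l : V, ∃ z : V, l ∈ β.image c → z ∈ β ∧ c z = l := by
    intro l
    by_cases h : l ∈ β.image c
    · obtain ⟨z, hz, hzl⟩ := Finset.mem_image.mp h
      exact ⟨z, fun _ => ⟨hz, hzl⟩⟩
    · exact ⟨l, fun h' => absurd h' h⟩
  choose g hg using hex
  refine ⟨(β.image c).image g, ?_, ?_, ?_⟩
  · intro z hz
    obtain ⟨l, hl, rfl⟩ := Finset.mem_image.mp hz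
    exact (hg l hl).1
  · intro x hx y hy hxy
    rw [Finset.mem_coe] at hx hy
    obtain ⟨l, hl, rfl⟩ := Finset.mem_image.mp hx
    obtain ⟨l', hl', rfl⟩ := Finset.mem_image.mp hy
    rw [(hg l hl).2, (hg l' hl').2] at hxy
    rw [hxy]
  · apply Finset.card_image_of_injOn
    intro l hl l' hl' h
    rw [Finset.mem_coe] at hl hl'
    rw [← (hg l hl).2, h, (hg l' hl').2]

/-- Pigeonhole for the arcs into (or out of) a vertex. -/
theorem exists_redundant (N : Finset V) (f : V → ℕ) (g : V → V → ℕ) (c : V → V) (t R : ℕ)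
    (hcard : (N.image c).card ≤ R)
    (hind : ∀ S ⊆ N, (∀ x ∈ S, ∀ y ∈ S, x ≠ y → g x y = 0) → S.card ≤ t)
    (hsum : R * t < ∑ x ∈ N, f x) :
    ∃ x₁ ∈ N, ∃ x₂ ∈ N, c x₁ = c x₂ ∧ ((x₁ = x₂ ∧ 2 ≤ f x₂) ∨ (x₁ ≠ x₂ ∧ 1 ≤ g x₁ x₂)) := by
  by_contra hcon
  push Not at hcon
  have h1 : ∀ x ∈ N, f x ≤ 1 := by
    intro x hx
    have := (hcon x hx x hx rfl).1 rfl
    omega
  have h2 : ∑ x ∈ N, f x ≤ N.card := by
    have := Finset.sum_le_sum h1
    simpa using this
  have h3 : N.card ≤ t * (N.image c).card := by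
    apply Finset.card_le_mul_card_image
    intro l _
    apply hind _ (Finset.filter_subset _ _)
    intro x hx y hy hxy
    rw [Finset.mem_filter] at hx hy
    have := (hcon x hx.1 y hy.1 (by rw [hx.2, hy.2])).2 hxy
    omega
  have h4 : t * (N.image c).card ≤ t * R := Nat.mul_le_mul le_rfl hcard
  rw [mul_comm] at hsum
  omega

theorem cut_in {k : ℕ} {W : Finset V} {m : V → V → ℕ} (hk : CutConn k W m) {v : V} (hv : v ∈ W)
    (hne : (W.erase v).Nonempty) : k ≤ ∑ x ∈ W.erase v, m x v := by
  have h1 := hk (W.erase v) (Finset.erase_subset v W) hne (by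
    intro h
    have : v ∈ W.erase v := by rw [h]; exact hv
    exact (Finset.notMem_erase v W) this)
  rw [dOut_erase hv m (Finset.Subset.refl _), wt_self] at h1
  have h2 : dOut (W.erase v) m (W.erase v) = 0 := by
    unfold dOut
    refine Finset.sum_eq_zero fun x _ => Finset.sum_eq_zero fun y hy => ?_
    simp [hy]
  omega

theorem cut_out {k : ℕ} {W : Finset V} {m : V → V → ℕ} (hk : CutConn k W m) {v : V} (hv : v ∈ W)
    (hne : (W.erase v).Nonempty) : k ≤ ∑ x ∈ W.erase v, m v x := by
  have h0 : W \ (W.erase v) = {v} := by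
    ext x
    simp only [Finset.mem_sdiff, Finset.mem_erase, Finset.mem_singleton, not_and, ne_eq]
    constructor
    · rintro ⟨h1, h2⟩
      by_contra h
      exact h2 h h1
    · rintro rfl
      exact ⟨hv, fun h => absurd rfl h⟩
  have h1 := hk {v} (Finset.singleton_subset_iff.mpr hv) (Finset.singleton_nonempty v) (by
    intro h
    obtain ⟨x, hx⟩ := hne
    have h3 : x ∈ ({v} : Finset V) := by rw [h]; exact Finset.mem_of_mem_erase hx
    rw [Finset.mem_singleton] at h3
    exact (Finset.mem_erase.mp hx).1 h3)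
  rw [← h0, ← dIn_eq W m (Finset.erase_subset v W), dIn_erase hv m (Finset.Subset.refl _), wt_self] at h1
  have h2 : dIn (W.erase v) m (W.erase v) = 0 := by
    unfold dIn
    refine Finset.sum_eq_zero fun x hx => Finset.sum_eq_zero fun y _ => ?_
    simp [hx]
  omega

/-- With at most one class there is nothing to do. -/
theorem good_of_one {k : ℕ} (hk1 : 1 ≤ k) {W : Finset V} {m : V → V → ℕ} {c : V → V}
    (hk : CutConn k W m) (hc : (W.image c).card ≤ 1) : Good W m c := by
  refine ⟨fun _ _ => False, fun _ _ h => h.elim, ?_, ?_⟩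
  · intro X hX h1 h2
    have h3 := hk X hX h1 h2
    by_contra hcon
    push Not at hcon
    have h4 : dOut W m X = 0 := by
      unfold dOut
      refine Finset.sum_eq_zero fun x _ => Finset.sum_eq_zero fun y hy => ?_
      by_cases hxy : x ∈ X ∧ y ∉ X
      · have h5 : m x y = 0 := by
          by_contra h6
          exact (hcon x hxy.1 y hy hxy.2 (Nat.pos_of_ne_zero h6)).1
        simp [h5]
      · simp [hxy]
    omega
  · intro X hX h1 h2 hcl
    exfalso
    apply h2
    apply Finset.Subset.antisymm hX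
    intro y hy
    obtain ⟨x, hx⟩ := h1
    rw [Finset.card_le_one] at hc
    exact (hcl x (hX hx) y hy (hc _ (Finset.mem_image_of_mem c (hX hx)) _
      (Finset.mem_image_of_mem c hy))).mp hx

/-- Bags with bounded independence number. -/
theorem main_alpha (t k : ℕ) (hk0 : (RN 4 t - 1) * t + 1 ≤ k) {ι : Type*} (B : ι → Set V)
    (hB : Simp B) : ∀ (n : ℕ) (W : Finset V) (m : V → V → ℕ) (c : V → V),
    W.card + (W.image c).card ≤ n → W.Nonempty → CutConn k W m →
    (∀ x ∈ W, ∀ y ∈ W, x ≠ y → 1 ≤ m x y → ∃ i, x ∈ B i ∧ y ∈ B i) →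
    (∀ i, ∀ S ⊆ W, (∀ x ∈ S, x ∈ B i) → (∀ x ∈ S, ∀ y ∈ S, x ≠ y → m x y = 0) → S.card ≤ t) →
    Good W m c := by
  classical
  intro n
  induction n with
  | zero =>
    intro W m c hn hW
    have := Finset.card_pos.mpr hW
    omega
  | succ n ih =>
    intro W m c hn hW hk hshare hind
    by_cases hone : (W.image c).card ≤ 1
    · exact good_of_one (by omega) hk hone
    obtain ⟨v, hv, i, hvi, hvB⟩ := hB W hW
    set β := W.filter (fun x => x ∈ B i) with hβ
    have hβW : β ⊆ W := Finset.filter_subset _ _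
    by_cases hmany : RN 4 t ≤ (β.image c).card
    · -- merge four classes
      obtain ⟨Z, hZβ, hZinj, hZcard⟩ := exists_transversal β c
      rcases ramsey m (4 + t) 4 t rfl Z (by rw [hZcard]; exact hmany) with
        ⟨l, hl1, hl2, hl3, hl4⟩ | ⟨S, hS1, hS2, hS3⟩
      · obtain ⟨p, q, r, s, rfl⟩ : ∃ p q r s, l = [p, q, r, s] := by
          rcases l with _ | ⟨p, _ | ⟨q, _ | ⟨r, _ | ⟨s, _ | ⟨u, l⟩⟩⟩⟩⟩
          · simp at hl1
          · simp at hl1
          · simp at hl1
          · simp at hl1
          · exact ⟨p, q, r, s, rfl⟩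
          · simp at hl1
        simp only [List.pairwise_cons, List.mem_cons, List.not_mem_nil, or_false, forall_eq_or_imp,
          forall_eq, List.Pairwise.nil, and_true, false_imp_iff, implies_true] at hl2
        simp only [List.nodup_cons, List.mem_cons, List.not_mem_nil, or_false, not_or,
          List.nodup_nil, and_true, not_false_eq_true] at hl3
        have hpZ := hl4 p (by simp)
        have hqZ := hl4 q (by simp)
        have hrZ := hl4 r (by simp)
        have hsZ := hl4 s (by simp)
        obtain ⟨⟨mpq, mpr, mps⟩, ⟨mqr, mqs⟩, mrs⟩ := hl2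
        obtain ⟨⟨npq, npr, nps⟩, ⟨nqr, nqs⟩, nrs⟩ := hl3
        have hinj : ∀ x ∈ Z, ∀ y ∈ Z, x ≠ y → c x ≠ c y := fun x hx y hy h h' => h (hZinj hx hy h')
        have hWZ : ∀ x ∈ Z, x ∈ W := fun x hx => hβW (hZβ hx)
        refine merge W m c (hWZ p hpZ) (hWZ q hqZ) (hWZ r hrZ) (hWZ s hsZ) (hinj p hpZ q hqZ npq)
          (hinj p hpZ r hrZ npr) (hinj p hpZ s hsZ nps) (hinj q hqZ r hrZ nqr) (hinj q hqZ s hsZ nqs)
          (hinj r hrZ s hsZ nrs) mpq mqr mrs mpr mps mqs ?_
        apply ih W m _ _ hW hk hshare hind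
        have h1 : W.image (mergeLab c p q r s) ⊆ (W.image c).erase (c q) := by
          intro l hl
          obtain ⟨x, hx, rfl⟩ := Finset.mem_image.mp hl
          unfold mergeLab
          split_ifs with h
          · exact Finset.mem_erase.mpr ⟨hinj p hpZ q hqZ npq, Finset.mem_image_of_mem c (hWZ p hpZ)⟩
          · exact Finset.mem_erase.mpr ⟨fun h' => h (Or.inl h'), Finset.mem_image_of_mem c hx⟩
        have h2 := Finset.card_le_card h1
        rw [Finset.card_erase_of_mem (Finset.mem_image_of_mem c (hWZ q hqZ))] at h2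
        omega
      · exfalso
        have h1 := hind i S (fun x hx => hβW (hZβ (hS1 hx)))
          (fun x hx => (Finset.mem_filter.mp (hZβ (hS1 hx))).2) hS3
        omega
    · -- eliminate `v`
      push Not at hmany
      have hne : (W.erase v).Nonempty := by
        rw [Finset.nonempty_iff_ne_empty]
        intro h
        apply hone
        have h1 : W ⊆ {v} := by
          intro x hx
          by_contra hxv
          rw [Finset.mem_singleton] at hxv
          have : x ∈ W.erase v := Finset.mem_erase.mpr ⟨hxv, hx⟩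
          rw [h] at this
          exact absurd this (Finset.notMem_empty x)
        have h2 := Finset.card_le_card (Finset.image_subset_image (f := c) h1)
        rw [Finset.image_singleton, Finset.card_singleton] at h2
        exact h2
      have hnbr : ∀ x ∈ W, x ≠ v → (1 ≤ m x v ∨ 1 ≤ m v x) → x ∈ β := by
        intro x hx hxv h
        rw [hβ, Finset.mem_filter]
        refine ⟨hx, ?_⟩
        apply hvB x hx
        rcases h with h | h
        · exact hshare x hx v hv hxv h
        · obtain ⟨j, h1, h2⟩ := hshare v hv x hx (Ne.symm hxv) h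
          exact ⟨j, h2, h1⟩
      have hdata : ∀ (f : V → ℕ) (g : V → V → ℕ), (∀ x ∈ W.erase v, 1 ≤ f x → x ∈ β) →
          (∀ S ⊆ W, (∀ x ∈ S, x ∈ B i) → (∀ x ∈ S, ∀ y ∈ S, x ≠ y → g x y = 0) → S.card ≤ t) →
          k ≤ ∑ x ∈ W.erase v, f x →
          ∃ x₁ ∈ W.erase v, ∃ x₂ ∈ W.erase v, 1 ≤ f x₁ ∧ 1 ≤ f x₂ ∧ c x₁ = c x₂ ∧
            ((x₁ = x₂ ∧ 2 ≤ f x₂) ∨ (x₁ ≠ x₂ ∧ 1 ≤ g x₁ x₂)) := by
        intro f g h1 h2 h3
        have h4 : ∑ x ∈ (W.erase v).filter (fun x => 1 ≤ f x), f x = ∑ x ∈ W.erase v, f x := by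
          apply Finset.sum_filter_of_ne
          intro x _ hx
          exact Nat.pos_of_ne_zero hx
        obtain ⟨x₁, hx₁, x₂, hx₂, h5, h6⟩ := exists_redundant
          ((W.erase v).filter (fun x => 1 ≤ f x)) f g c t (RN 4 t - 1) (by
            have h7 : ((W.erase v).filter (fun x => 1 ≤ f x)).image c ⊆ β.image c := by
              apply Finset.image_subset_image
              intro x hx
              rw [Finset.mem_filter] at hx
              exact h1 x hx.1 hx.2
            have := Finset.card_le_card h7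
            omega) (by
            intro S hS hSi
            apply h2 S _ _ hSi
            · intro x hx
              exact Finset.mem_of_mem_erase (Finset.mem_filter.mp (hS hx)).1
            · intro x hx
              have h8 := Finset.mem_filter.mp (hS hx)
              exact (Finset.mem_filter.mp (h1 x h8.1 h8.2)).2) (by rw [h4]; omega)
        rw [Finset.mem_filter] at hx₁ hx₂
        exact ⟨x₁, hx₁.1, x₂, hx₂.1, hx₁.2, hx₂.2, h5, h6⟩
      obtain ⟨x₁, hx₁, x₂, hx₂, f1, f2, hcx, hx⟩ := hdata (fun x => m x v) m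
        (fun x hx h => hnbr x (Finset.mem_of_mem_erase hx) (Finset.mem_erase.mp hx).1 (Or.inl h))
        (hind i) (cut_in hk hv hne)
      obtain ⟨z₁, hz₁, z₂, hz₂, f3, f4, hcz, hz⟩ := hdata (fun x => m v x) (fun x y => m y x)
        (fun x hx h => hnbr x (Finset.mem_of_mem_erase hx) (Finset.mem_erase.mp hx).1 (Or.inr h))
        (fun S h1 h2 h3 => hind i S h1 h2 (fun x hx y hy hxy => h3 y hy x hx (Ne.symm hxy)))
        (cut_out hk hv hne)
      rw [Finset.mem_erase] at hx₁ hx₂ hz₁ hz₂
      obtain ⟨w, hw1, hw2, hw3⟩ := elim W m c hk hv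
        (⟨hx₁.2, hx₂.2, hx₁.1, hx₂.1, f1, f2, hcx, Or.inr hx⟩ : InData W m c v x₁ x₂)
        (⟨hz₁.2, hz₂.2, hz₁.1, hz₂.1, f3, f4, hcz, Or.inr hz⟩ : OutData W m c v z₁ z₂)
      apply hw3
      apply ih (W.erase v) _ c _ hne hw2
      · intro x hx y hy hxy h
        by_cases h1 : 1 ≤ m x y
        · exact hshare x (Finset.mem_of_mem_erase hx) y (Finset.mem_of_mem_erase hy) hxy h1
        · obtain ⟨h2, h3⟩ := hw1 x hx y hy (by beta_reduce at h; omega)
          refine ⟨i, ?_, ?_⟩
          · exact (Finset.mem_filter.mp (hnbr x (Finset.mem_of_mem_erase hx)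
              (Finset.mem_erase.mp hx).1 (Or.inl h2))).2
          · exact (Finset.mem_filter.mp (hnbr y (Finset.mem_of_mem_erase hy)
              (Finset.mem_erase.mp hy).1 (Or.inr h3))).2
      · intro j S hS hSj hS0
        apply hind j S (hS.trans (Finset.erase_subset v W)) hSj
        intro x hx y hy hxy
        have := hS0 x hx y hy hxy
        beta_reduce at this
        omega
      · have h1 := Finset.card_erase_of_mem hv
        have h2 := Finset.card_pos.mpr hW
        have h3 := Finset.card_le_card (Finset.image_subset_image (f := c) (Finset.erase_subset v W))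
        omega

/-- Small bags. -/
theorem main_tw (w k : ℕ) (hk0 : w + 1 ≤ k) {ι : Type*} (B : ι → Set V) (hB : Simp B) :
    ∀ (n : ℕ) (W : Finset V) (m : V → V → ℕ) (c : V → V),
    W.card ≤ n → W.Nonempty → CutConn k W m →
    (∀ x ∈ W, ∀ y ∈ W, x ≠ y → 1 ≤ m x y → ∃ i, x ∈ B i ∧ y ∈ B i) →
    (∀ i, ∀ S ⊆ W, (∀ x ∈ S, x ∈ B i) → S.card ≤ w + 1) → Good W m c := by
  classical
  intro n
  induction n with
  | zero =>
    intro W m c hn hW
    have := Finset.card_pos.mpr hW
    omega
  | succ n ih =>
    intro W m c hn hW hk hshare hind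
    by_cases hone : (W.image c).card ≤ 1
    · exact good_of_one (by omega) hk hone
    obtain ⟨v, hv, i, hvi, hvB⟩ := hB W hW
    have hne : (W.erase v).Nonempty := by
      rw [Finset.nonempty_iff_ne_empty]
      intro h
      apply hone
      have h1 : W ⊆ {v} := by
        intro x hx
        by_contra hxv
        rw [Finset.mem_singleton] at hxv
        have : x ∈ W.erase v := Finset.mem_erase.mpr ⟨hxv, hx⟩
        rw [h] at this
        exact absurd this (Finset.notMem_empty x)
      have h2 := Finset.card_le_card (Finset.image_subset_image (f := c) h1)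
      rw [Finset.image_singleton, Finset.card_singleton] at h2
      exact h2
    have hnbr : ∀ x ∈ W, x ≠ v → (1 ≤ m x v ∨ 1 ≤ m v x) → x ∈ B i := by
      intro x hx hxv h
      apply hvB x hx
      rcases h with h | h
      · exact hshare x hx v hv hxv h
      · obtain ⟨j, h1, h2⟩ := hshare v hv x hx (Ne.symm hxv) h
        exact ⟨j, h2, h1⟩
    have hdata : ∀ f : V → ℕ, (∀ x ∈ W.erase v, 1 ≤ f x → x ∈ B i) →
        k ≤ ∑ x ∈ W.erase v, f x → ∃ x ∈ W.erase v, 2 ≤ f x := by
      intro f h1 h2
      by_contra hcon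
      push Not at hcon
      set N := (W.erase v).filter (fun x => 1 ≤ f x) with hN
      have h3 : ∑ x ∈ W.erase v, f x ≤ N.card := by
        rw [hN, Finset.card_filter]
        apply Finset.sum_le_sum
        intro x hx
        have := hcon x hx
        split_ifs <;> omega
      have hvN : v ∉ N := by
        intro h
        exact (Finset.notMem_erase v W) (Finset.mem_filter.mp h).1
      have h4 := hind i (insert v N) (by
        intro x hx
        rw [Finset.mem_insert] at hx
        rcases hx with rfl | hx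
        · exact hv
        · exact Finset.mem_of_mem_erase (Finset.mem_filter.mp hx).1) (by
        intro x hx
        rw [Finset.mem_insert] at hx
        rcases hx with rfl | hx
        · exact hvi
        · rw [hN, Finset.mem_filter] at hx
          exact h1 x hx.1 hx.2)
      rw [Finset.card_insert_of_notMem hvN] at h4
      omega
    obtain ⟨x, hx, hfx⟩ := hdata (fun x => m x v)
      (fun x hx h => hnbr x (Finset.mem_of_mem_erase hx) (Finset.mem_erase.mp hx).1 (Or.inl h))
      (cut_in hk hv hne)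
    obtain ⟨z, hz, hfz⟩ := hdata (fun x => m v x)
      (fun x hx h => hnbr x (Finset.mem_of_mem_erase hx) (Finset.mem_erase.mp hx).1 (Or.inr h))
      (cut_out hk hv hne)
    rw [Finset.mem_erase] at hx hz
    beta_reduce at hfx hfz
    obtain ⟨w', hw1, hw2, hw3⟩ := elim W m c hk hv
      (⟨hx.2, hx.2, hx.1, hx.1, by omega, by omega, rfl, Or.inr (Or.inl ⟨rfl, hfx⟩)⟩ :
        InData W m c v x x)
      (⟨hz.2, hz.2, hz.1, hz.1, by omega, by omega, rfl, Or.inr (Or.inl ⟨rfl, hfz⟩)⟩ :
        OutData W m c v z z)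
    apply hw3
    apply ih (W.erase v) _ c _ hne hw2
    · intro x hx y hy hxy h
      by_cases h1 : 1 ≤ m x y
      · exact hshare x (Finset.mem_of_mem_erase hx) y (Finset.mem_of_mem_erase hy) hxy h1
      · obtain ⟨h2, h3⟩ := hw1 x hx y hy (by beta_reduce at h; omega)
        exact ⟨i, hnbr x (Finset.mem_of_mem_erase hx) (Finset.mem_erase.mp hx).1 (Or.inl h2),
          hnbr y (Finset.mem_of_mem_erase hy) (Finset.mem_erase.mp hy).1 (Or.inr h3)⟩
    · intro j S hS hSj
      exact hind j S (hS.trans (Finset.erase_subset v W)) hSj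
    · have h1 := Finset.card_erase_of_mem hv
      have h2 := Finset.card_pos.mpr hW
      omega

end Pool.Agent.Lib.MP_ce98c0_co
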