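import Pool.Agent.Lib.MP_ce98c0_co.Elim

/-!
# MP_ce98c0_co: merging four classes, and a Ramsey lemma
-/

set_option autoImplicit false

namespace Pool.Agent.Lib.MP_ce98c0_co

open Finset

variable {V : Type*} [DecidableEq V]

/-- the labels after merging the classes of `p`, `q`, `r`, `s` -/
def mergeLab (c : V → V) (p q r s : V) : V → V := fun x =>
  if c x = c q ∨ c x = c r ∨ c x = c s then c p else c x

/-- A transitive tournament with four vertices in different classes can be used to merge the classes. -/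
theorem merge (W : Finset V) (m : V → V → ℕ) (c : V → V) {p q r s : V} (hp : p ∈ W) (hq : q ∈ W)
    (hr : r ∈ W) (hs : s ∈ W) (hpq : c p ≠ c q) (hpr : c p ≠ c r) (hps : c p ≠ c s) (hqr : c q ≠ c r)
    (hqs : c q ≠ c s) (hrs : c r ≠ c s) (mpq : 1 ≤ m p q) (mqr : 1 ≤ m q r) (mrs : 1 ≤ m r s)
    (mpr : 1 ≤ m p r) (mps : 1 ≤ m p s) (mqs : 1 ≤ m q s)
    (h : Good W m (mergeLab c p q r s)) : Good W m c := by
  classical
  obtain ⟨T', h1, h2, h3⟩ := h
  have lp : mergeLab c p q r s p = c p := by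
    unfold mergeLab
    split_ifs <;> rfl
  have lq : mergeLab c p q r s q = c p := by simp [mergeLab]
  have lr : mergeLab c p q r s r = c p := by simp [mergeLab]
  have ls : mergeLab c p q r s s = c p := by simp [mergeLab]
  let S : V → V → Prop := fun x y => (x = p ∧ y = r) ∨ (x = p ∧ y = s) ∨ (x = q ∧ y = s)
  let T : V → V → Prop := fun x y => T' x y ∨ S x y
  have npq : p ≠ q := fun h => hpq (by rw [h])
  have npr : p ≠ r := fun h => hpr (by rw [h])
  have nps : p ≠ s := fun h => hps (by rw [h])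
  have nqr : q ≠ r := fun h => hqr (by rw [h])
  have nqs : q ≠ s := fun h => hqs (by rw [h])
  have nrs : r ≠ s := fun h => hrs (by rw [h])
  have hTpq : ¬ T p q := by
    rintro (h | ⟨-, h⟩ | ⟨-, h⟩ | ⟨h, -⟩)
    · exact (h1 p q h).2.2.1 (by rw [lp, lq])
    · exact nqr h
    · exact nqs h
    · exact npq h
  have hTqr : ¬ T q r := by
    rintro (h | ⟨h, -⟩ | ⟨h, -⟩ | ⟨-, h⟩)
    · exact (h1 q r h).2.2.1 (by rw [lq, lr])
    · exact npq h.symm
    · exact npq h.symm
    · exact nrs h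
  have hTrs : ¬ T r s := by
    rintro (h | ⟨h, -⟩ | ⟨h, -⟩ | ⟨h, -⟩)
    · exact (h1 r s h).2.2.1 (by rw [lr, ls])
    · exact npr h.symm
    · exact npr h.symm
    · exact nqr h.symm
  refine ⟨T, ?_, ?_, ?_⟩
  · rintro x y (h | ⟨rfl, rfl⟩ | ⟨rfl, rfl⟩ | ⟨rfl, rfl⟩)
    · obtain ⟨h4, h5, h6, h7⟩ := h1 x y h
      refine ⟨h4, h5, fun h8 => h6 ?_, h7⟩
      unfold mergeLab
      rw [h8]
    · exact ⟨hp, hr, hpr, mpr⟩
    · exact ⟨hp, hs, hps, mps⟩
    · exact ⟨hq, hs, hqs, mqs⟩
  · intro X hX hX1 hX2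
    obtain ⟨x, hx, y, hy, hyX, h4, h5⟩ := h2 X hX hX1 hX2
    have key : p ∈ X → s ∉ X → ∃ x ∈ X, ∃ y ∈ W, y ∉ X ∧ 1 ≤ m x y ∧ (T x y → 2 ≤ m x y) := by
      intro hpX hsX
      by_cases hqX : q ∈ X
      · by_cases hrX : r ∈ X
        · exact ⟨r, hrX, s, hs, hsX, mrs, fun h => absurd h hTrs⟩
        · exact ⟨q, hqX, r, hr, hrX, mqr, fun h => absurd h hTqr⟩
      · exact ⟨p, hpX, q, hq, hqX, mpq, fun h => absurd h hTpq⟩
    by_cases hS : S x y
    · rcases hS with ⟨rfl, rfl⟩ | ⟨rfl, rfl⟩ | ⟨rfl, rfl⟩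
      · by_cases hqX : q ∈ X
        · exact ⟨q, hqX, y, hr, hyX, mqr, fun h => absurd h hTqr⟩
        · exact ⟨x, hx, q, hq, hqX, mpq, fun h => absurd h hTpq⟩
      · exact key hx hyX
      · by_cases hrX : r ∈ X
        · exact ⟨r, hrX, y, hs, hyX, mrs, fun h => absurd h hTrs⟩
        · exact ⟨x, hx, r, hr, hrX, mqr, fun h => absurd h hTqr⟩
    · exact ⟨x, hx, y, hy, hyX, h4, fun h => h5 (h.resolve_right hS)⟩
  · intro X hX hX1 hX2 hcl
    by_cases hall : (p ∈ X ↔ q ∈ X) ∧ (p ∈ X ↔ r ∈ X) ∧ (p ∈ X ↔ s ∈ X)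
    · obtain ⟨x, hx, y, hy, hyX, h4⟩ := h3 X hX hX1 hX2 (by
        -- `X` is closed for the merged labels
        have hrep : ∀ x ∈ W, ∃ x' ∈ W, c x' = mergeLab c p q r s x ∧ (x ∈ X ↔ x' ∈ X) := by
          intro x hx
          by_cases hx1 : c x = c q
          · refine ⟨p, hp, ?_, ?_⟩
            · simp [mergeLab, hx1]
            · rw [hcl x hx q hq hx1]; exact hall.1.symm
          by_cases hx2 : c x = c r
          · refine ⟨p, hp, ?_, ?_⟩
            · simp [mergeLab, hx2]
            · rw [hcl x hx r hr hx2]; exact hall.2.1.symm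
          by_cases hx3 : c x = c s
          · refine ⟨p, hp, ?_, ?_⟩
            · simp [mergeLab, hx3]
            · rw [hcl x hx s hs hx3]; exact hall.2.2.symm
          · exact ⟨x, hx, by simp [mergeLab, hx1, hx2, hx3], Iff.rfl⟩
        intro x hx y hy hxy
        obtain ⟨x', hx', hx1, hx2⟩ := hrep x hx
        obtain ⟨y', hy', hy1, hy2⟩ := hrep y hy
        rw [hx2, hy2]
        exact hcl x' hx' y' hy' (by rw [hx1, hy1, hxy]))
      exact ⟨x, hx, y, hy, hyX, h4.imp Or.inl Or.inl⟩
    · -- one of the three arcs crosses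
      have Spr : T p r := Or.inr (Or.inl ⟨rfl, rfl⟩)
      have Sps : T p s := Or.inr (Or.inr (Or.inl ⟨rfl, rfl⟩))
      have Sqs : T q s := Or.inr (Or.inr (Or.inr ⟨rfl, rfl⟩))
      by_cases hpX : p ∈ X <;> by_cases hqX : q ∈ X <;> by_cases hrX : r ∈ X <;>
        by_cases hsX : s ∈ X <;> simp only [hpX, hqX, hrX, hsX, iff_true, iff_false,
          not_true_eq_false, not_false_eq_true, and_true, and_false, and_self] at hall
      · exact ⟨p, hpX, s, hs, hsX, Or.inl Sps⟩
      · exact ⟨p, hpX, r, hr, hrX, Or.inl Spr⟩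
      · exact ⟨p, hpX, r, hr, hrX, Or.inl Spr⟩
      · exact ⟨s, hsX, q, hq, hqX, Or.inr Sqs⟩
      · exact ⟨p, hpX, s, hs, hsX, Or.inl Sps⟩
      · exact ⟨p, hpX, r, hr, hrX, Or.inl Spr⟩
      · exact ⟨p, hpX, r, hr, hrX, Or.inl Spr⟩
      · exact ⟨s, hsX, p, hp, hpX, Or.inr Sps⟩
      · exact ⟨r, hrX, p, hp, hpX, Or.inr Spr⟩
      · exact ⟨s, hsX, p, hp, hpX, Or.inr Sps⟩
      · exact ⟨q, hqX, s, hs, hsX, Or.inl Sqs⟩
      · exact ⟨s, hsX, p, hp, hpX, Or.inr Sps⟩
      · exact ⟨r, hrX, p, hp, hpX, Or.inr Spr⟩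
      · exact ⟨s, hsX, p, hp, hpX, Or.inr Sps⟩

/-- the Ramsey numbers used below -/
def RN : ℕ → ℕ → ℕ
  | 0, _ => 0
  | _ + 1, 0 => 1
  | s + 1, t + 1 => 2 * RN s (t + 1) + RN (s + 1) t + 1

/-- A set of `RN s t` vertices contains a transitive chain of `s` vertices or `t + 1` independent ones. -/
theorem ramsey (m : V → V → ℕ) : ∀ (n s t : ℕ), s + t = n → ∀ Z : Finset V, RN s t ≤ Z.card →
    (∃ l : List V, l.length = s ∧ l.Pairwise (fun x y => 1 ≤ m x y) ∧ l.Nodup ∧ ∀ x ∈ l, x ∈ Z) ∨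
    (∃ S ⊆ Z, S.card = t + 1 ∧ ∀ x ∈ S, ∀ y ∈ S, x ≠ y → m x y = 0) := by
  intro n
  induction n with
  | zero =>
    intro s t hst Z _
    have hs : s = 0 := by omega
    subst hs
    exact Or.inl ⟨[], rfl, List.Pairwise.nil, List.nodup_nil, fun x hx => absurd hx (List.not_mem_nil)⟩
  | succ n ih =>
    intro s t hst Z hZ
    rcases s with _ | s
    · exact Or.inl ⟨[], rfl, List.Pairwise.nil, List.nodup_nil, fun x hx => absurd hx (List.not_mem_nil)⟩
    rcases t with _ | t
    · right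
      have h1 : 0 < Z.card := by
        unfold RN at hZ
        omega
      obtain ⟨v, hv⟩ := Finset.card_pos.mp h1
      refine ⟨{v}, Finset.singleton_subset_iff.mpr hv, Finset.card_singleton v, ?_⟩
      intro x hx y hy hxy
      rw [Finset.mem_singleton] at hx hy
      exact absurd (hx.trans hy.symm) hxy
    · unfold RN at hZ
      have h1 : 0 < Z.card := by omega
      obtain ⟨v, hv⟩ := Finset.card_pos.mp h1
      set O := (Z.erase v).filter (fun z => 1 ≤ m v z) with hO
      set I := ((Z.erase v).filter (fun z => ¬ 1 ≤ m v z)).filter (fun z => 1 ≤ m z v) with hI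
      set N := ((Z.erase v).filter (fun z => ¬ 1 ≤ m v z)).filter (fun z => ¬ 1 ≤ m z v) with hN
      have hsplit : O.card + I.card + N.card = Z.card - 1 := by
        rw [← Finset.card_erase_of_mem hv]
        have e1 : O.card + ((Z.erase v).filter (fun z => ¬ 1 ≤ m v z)).card = (Z.erase v).card :=
          Finset.card_filter_add_card_filter_not (s := Z.erase v) (fun z => 1 ≤ m v z)
        have e2 : I.card + N.card = ((Z.erase v).filter (fun z => ¬ 1 ≤ m v z)).card :=
          Finset.card_filter_add_card_filter_not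
            (s := (Z.erase v).filter (fun z => ¬ 1 ≤ m v z)) (fun z => 1 ≤ m z v)
        omega
      have hOZ : ∀ z ∈ O, z ∈ Z ∧ z ≠ v ∧ 1 ≤ m v z := by
        intro z hz
        rw [hO, Finset.mem_filter, Finset.mem_erase] at hz
        exact ⟨hz.1.2, hz.1.1, hz.2⟩
      have hIZ : ∀ z ∈ I, z ∈ Z ∧ z ≠ v ∧ 1 ≤ m z v := by
        intro z hz
        rw [hI, Finset.mem_filter, Finset.mem_filter, Finset.mem_erase] at hz
        exact ⟨hz.1.1.2, hz.1.1.1, hz.2⟩
      have hNZ : ∀ z ∈ N, z ∈ Z ∧ z ≠ v ∧ m v z = 0 ∧ m z v = 0 := by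
        intro z hz
        rw [hN, Finset.mem_filter, Finset.mem_filter, Finset.mem_erase] at hz
        exact ⟨hz.1.1.2, hz.1.1.1, by omega, by omega⟩
      by_cases c1 : RN s (t + 1) ≤ O.card
      · rcases ih s (t + 1) (by omega) O c1 with ⟨l, hl1, hl2, hl3, hl4⟩ | ⟨S, hS1, hS2, hS3⟩
        · left
          refine ⟨v :: l, by rw [List.length_cons, hl1], ?_, ?_, ?_⟩
          · exact List.Pairwise.cons (fun z hz => (hOZ z (hl4 z hz)).2.2) hl2
          · rw [List.nodup_cons]
            exact ⟨fun h => (hOZ v (hl4 v h)).2.1 rfl, hl3⟩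
          · intro x hx
            rw [List.mem_cons] at hx
            rcases hx with rfl | hx
            · exact hv
            · exact (hOZ x (hl4 x hx)).1
        · right
          exact ⟨S, fun z hz => (hOZ z (hS1 hz)).1, hS2, hS3⟩
      by_cases c2 : RN s (t + 1) ≤ I.card
      · rcases ih s (t + 1) (by omega) I c2 with ⟨l, hl1, hl2, hl3, hl4⟩ | ⟨S, hS1, hS2, hS3⟩
        · left
          refine ⟨l ++ [v], by rw [List.length_append, hl1, List.length_singleton], ?_, ?_, ?_⟩
          · rw [List.pairwise_append]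
            refine ⟨hl2, List.pairwise_singleton _ _, ?_⟩
            intro x hx y hy
            rw [List.mem_singleton] at hy
            rw [hy]
            exact (hIZ x (hl4 x hx)).2.2
          · rw [List.nodup_append]
            refine ⟨hl3, List.nodup_singleton v, ?_⟩
            intro x hx y hy
            rw [List.mem_singleton] at hy
            rw [hy]
            exact (hIZ x (hl4 x hx)).2.1
          · intro x hx
            rw [List.mem_append, List.mem_singleton] at hx
            rcases hx with hx | rfl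
            · exact (hIZ x (hl4 x hx)).1
            · exact hv
        · right
          exact ⟨S, fun z hz => (hIZ z (hS1 hz)).1, hS2, hS3⟩
      have c3 : RN (s + 1) t ≤ N.card := by omega
      rcases ih (s + 1) t (by omega) N c3 with ⟨l, hl1, hl2, hl3, hl4⟩ | ⟨S, hS1, hS2, hS3⟩
      · left
        exact ⟨l, hl1, hl2, hl3, fun x hx => (hNZ x (hl4 x hx)).1⟩
      · right
        have hvS : v ∉ S := fun h => (hNZ v (hS1 h)).2.1 rfl
        refine ⟨insert v S, ?_, ?_, ?_⟩
        · intro z hz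
          rw [Finset.mem_insert] at hz
          rcases hz with rfl | hz
          · exact hv
          · exact (hNZ z (hS1 hz)).1
        · rw [Finset.card_insert_of_notMem hvS, hS2]
        · intro x hx y hy hxy
          rw [Finset.mem_insert] at hx hy
          rcases hx with rfl | hx <;> rcases hy with rfl | hy
          · exact absurd rfl hxy
          · exact (hNZ y (hS1 hy)).2.2.1
          · exact (hNZ x (hS1 hx)).2.2.2
          · exact hS3 x hx y hy hxy

end Pool.Agent.Lib.MP_ce98c0_co
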