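import Mathlib

/-!
# MP_ce98c0_co: complete splitting off in digraphs (Mader), in terms of multiplicities

`m x y` is the number of arcs from `x` to `y`; `a x` is the number of arcs from `x` to the special vertex and
`b y` the number of arcs from the special vertex to `y`.
-/

set_option autoImplicit false

namespace Pool.Agent.Lib.MP_ce98c0_co

open Finset

variable {V : Type*} [DecidableEq V]

/-- number of arcs leaving `X`, inside `W` -/
def dOut (W : Finset V) (m : V → V → ℕ) (X : Finset V) : ℕ :=
  ∑ x ∈ W, ∑ y ∈ W, if x ∈ X ∧ y ∉ X then m x y else 0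

/-- number of arcs entering `X`, inside `W` -/
def dIn (W : Finset V) (m : V → V → ℕ) (X : Finset V) : ℕ :=
  ∑ x ∈ W, ∑ y ∈ W, if x ∉ X ∧ y ∈ X then m x y else 0

/-- the part of a weight in `X` -/
def wt (W : Finset V) (a : V → ℕ) (X : Finset V) : ℕ := ∑ x ∈ W, if x ∈ X then a x else 0

/-- every nontrivial cut of `W` has at least `k` arcs -/
def CutConn (k : ℕ) (W : Finset V) (m : V → V → ℕ) : Prop :=
  ∀ X ⊆ W, X.Nonempty → X ≠ W → k ≤ dOut W m X

theorem dIn_eq (W : Finset V) (m : V → V → ℕ) {X : Finset V} (_ : X ⊆ W) :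
    dIn W m X = dOut W m (W \ X) := by
  unfold dIn dOut
  refine Finset.sum_congr rfl fun x hx => Finset.sum_congr rfl fun y hy => ?_
  simp only [mem_sdiff, hx, hy, true_and, not_not]

theorem dOut_eq (W : Finset V) (m : V → V → ℕ) {X : Finset V} (_ : X ⊆ W) :
    dOut W m X = dIn W m (W \ X) := by
  unfold dIn dOut
  refine Finset.sum_congr rfl fun x hx => Finset.sum_congr rfl fun y hy => ?_
  simp only [mem_sdiff, hx, hy, true_and, not_not]

theorem wt_mono (W : Finset V) (a : V → ℕ) {X Y : Finset V} (h : X ⊆ Y) : wt W a X ≤ wt W a Y := by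
  unfold wt
  refine Finset.sum_le_sum fun x _ => ?_
  by_cases h1 : x ∈ X
  · simp [h1, h h1]
  · simp [h1]

theorem wt_self (W : Finset V) (a : V → ℕ) : wt W a W = ∑ x ∈ W, a x := by
  unfold wt
  exact Finset.sum_congr rfl fun x hx => by simp [hx]

theorem wt_inter_union (W : Finset V) (a : V → ℕ) (X Y : Finset V) :
    wt W a (X ∩ Y) + wt W a (X ∪ Y) = wt W a X + wt W a Y := by
  unfold wt
  rw [← Finset.sum_add_distrib, ← Finset.sum_add_distrib]
  refine Finset.sum_congr rfl fun x _ => ?_
  by_cases h1 : x ∈ X <;> by_cases h2 : x ∈ Y <;> simp [h1, h2]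

theorem wt_sdiff (W : Finset V) (a : V → ℕ) (X : Finset V) :
    wt W a X + wt W a (W \ X) = ∑ x ∈ W, a x := by
  unfold wt
  rw [← Finset.sum_add_distrib]
  refine Finset.sum_congr rfl fun x hx => ?_
  by_cases h1 : x ∈ X <;> simp [h1, hx]

theorem le_wt (W : Finset V) (a : V → ℕ) {X : Finset V} {x : V} (hx : x ∈ W) (hX : x ∈ X) :
    a x ≤ wt W a X := by
  unfold wt
  have := Finset.single_le_sum (f := fun x => if x ∈ X then a x else 0) (fun _ _ => Nat.zero_le _) hx
  simpa [hX] using this

theorem dOut_submod (W : Finset V) (m : V → V → ℕ) (X Y : Finset V) :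
    dOut W m (X ∩ Y) + dOut W m (X ∪ Y) ≤ dOut W m X + dOut W m Y := by
  unfold dOut
  simp only [← Finset.sum_add_distrib]
  refine Finset.sum_le_sum fun x _ => Finset.sum_le_sum fun y _ => ?_
  by_cases h1 : x ∈ X <;> by_cases h2 : x ∈ Y <;> by_cases h3 : y ∈ X <;> by_cases h4 : y ∈ Y <;>
    simp [h1, h2, h3, h4]

theorem dIn_submod (W : Finset V) (m : V → V → ℕ) (X Y : Finset V) :
    dIn W m (X ∩ Y) + dIn W m (X ∪ Y) ≤ dIn W m X + dIn W m Y := by
  unfold dIn
  simp only [← Finset.sum_add_distrib]
  refine Finset.sum_le_sum fun x _ => Finset.sum_le_sum fun y _ => ?_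
  by_cases h1 : x ∈ X <;> by_cases h2 : x ∈ Y <;> by_cases h3 : y ∈ X <;> by_cases h4 : y ∈ Y <;>
    simp [h1, h2, h3, h4]

theorem cross (W : Finset V) (m : V → V → ℕ) (X Y : Finset V) :
    dIn W m (X \ Y) + dOut W m (Y \ X) ≤ dIn W m X + dOut W m Y := by
  unfold dIn dOut
  simp only [← Finset.sum_add_distrib]
  refine Finset.sum_le_sum fun x _ => Finset.sum_le_sum fun y _ => ?_
  by_cases h1 : x ∈ X <;> by_cases h2 : x ∈ Y <;> by_cases h3 : y ∈ X <;> by_cases h4 : y ∈ Y <;>
    simp [h1, h2, h3, h4]

theorem cross_wt (W : Finset V) (a : V → ℕ) (X Y : Finset V) :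
    wt W a (X \ Y) + wt W a (X ∩ Y) = wt W a X := by
  unfold wt
  simp only [← Finset.sum_add_distrib]
  refine Finset.sum_congr rfl fun x _ => ?_
  by_cases h1 : x ∈ X <;> by_cases h2 : x ∈ Y <;> simp [h1, h2]

/-- For every `t` with `b t > 0` there is a `u` with `a u > 0` such that no tight set contains both. -/
theorem exists_pair (k : ℕ) (W : Finset V) (m : V → V → ℕ) (a b : V → ℕ)
    (hab : ∑ x ∈ W, a x = ∑ x ∈ W, b x)
    (hin : ∀ X ⊆ W, X.Nonempty → X ≠ W → k ≤ dIn W m X + wt W b X)
    (hout : ∀ X ⊆ W, X.Nonempty → X ≠ W → k ≤ dOut W m X + wt W a X)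
    (t : V) (ht : t ∈ W) (hbt : 0 < b t) :
    ∃ u ∈ W, 0 < a u ∧ ∀ X ⊆ W, X ≠ W → u ∈ X → t ∈ X →
      k < dIn W m X + wt W b X ∧ k < dOut W m X + wt W a X := by
  classical
  by_contra hcon
  push Not at hcon
  -- a vertex `u` with `a u > 0`
  have hpos : 0 < ∑ x ∈ W, a x := by
    rw [hab]
    exact Finset.sum_pos' (fun _ _ => Nat.zero_le _) ⟨t, ht, hbt⟩
  -- the tight sets containing `t`
  let tight : Finset V → Prop := fun X => X ≠ W ∧ t ∈ X ∧
    (dIn W m X + wt W b X = k ∨ dOut W m X + wt W a X = k)
  have htight : ∀ u ∈ W, 0 < a u → ∃ X ⊆ W, tight X ∧ u ∈ X := by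
    intro u hu hau
    obtain ⟨X, hXW, hXne, huX, htX, hX⟩ := hcon u hu hau
    refine ⟨X, hXW, ⟨hXne, htX, ?_⟩, huX⟩
    have h1 := hin X hXW ⟨t, htX⟩ hXne
    have h2 := hout X hXW ⟨t, htX⟩ hXne
    by_cases h3 : k < dIn W m X + wt W b X
    · right
      have := hX h3
      omega
    · left
      omega
  obtain ⟨u₀, hu₀, hau₀⟩ : ∃ u ∈ W, 0 < a u := by
    by_contra h
    push Not at h
    have : ∑ x ∈ W, a x = 0 := Finset.sum_eq_zero fun x hx => by have := h x hx; omega
    omega
  obtain ⟨X₀, hX₀W, hX₀, -⟩ := htight u₀ hu₀ hau₀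
  -- a maximal one
  obtain ⟨M, hM, hmax⟩ := Finset.exists_max_image (W.powerset.filter tight) Finset.card
    ⟨X₀, Finset.mem_filter.mpr ⟨Finset.mem_powerset.mpr hX₀W, hX₀⟩⟩
  rw [Finset.mem_filter, Finset.mem_powerset] at hM
  obtain ⟨hMW, hMne, htM, hMt⟩ := hM
  have hmax' : ∀ Y ⊆ W, tight Y → Y.card ≤ M.card := fun Y hY hYt =>
    hmax Y (Finset.mem_filter.mpr ⟨Finset.mem_powerset.mpr hY, hYt⟩)
  have hAne : (W \ M).Nonempty := by
    rw [Finset.sdiff_nonempty]
    intro h
    exact hMne (Finset.Subset.antisymm hMW h)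
  have hAne' : W \ M ≠ W := by
    intro h
    have : t ∈ W \ M := by rw [h]; exact ht
    exact (Finset.mem_sdiff.mp this).2 htM
  have hMcard : ∀ Y : Finset V, M ⊆ Y → ∀ u, u ∈ Y → u ∉ M → M.card < Y.card := by
    intro Y hY u huY huM
    apply Finset.card_lt_card
    exact ⟨hY, fun h => huM (h huY)⟩
  have hbt' : ∀ Z : Finset V, t ∈ Z → 1 ≤ wt W b Z := fun Z hZ => le_trans hbt (le_wt W b ht hZ)
  rcases hMt with hMt | hMt
  · -- `M` is tight for the in-degree
    have hall : ∀ u ∈ W, 0 < a u → u ∈ M := by
      intro u hu hau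
      by_contra huM
      obtain ⟨Y, hYW, ⟨hYne, htY, hYt⟩, huY⟩ := htight u hu hau
      rcases hYt with hYt | hYt
      · -- both in-tight
        by_cases hU : M ∪ Y = W
        · -- the union is everything
          have hA1 := hout (W \ M) Finset.sdiff_subset hAne hAne'
          have hBne : (W \ Y).Nonempty := by
            rw [Finset.sdiff_nonempty]
            intro h
            exact hYne (Finset.Subset.antisymm hYW h)
          have hBne' : W \ Y ≠ W := by
            intro h
            have : t ∈ W \ Y := by rw [h]; exact ht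
            exact (Finset.mem_sdiff.mp this).2 htY
          have hB1 := hout (W \ Y) Finset.sdiff_subset hBne hBne'
          rw [← dIn_eq W m hMW] at hA1
          rw [← dIn_eq W m hYW] at hB1
          have h1 : wt W b M ≤ wt W a (W \ M) := by omega
          have h2 : wt W b Y ≤ wt W a (W \ Y) := by omega
          have h3 := wt_inter_union W b M Y
          rw [hU, wt_self] at h3
          have h4 := hbt' (M ∩ Y) (Finset.mem_inter.mpr ⟨htM, htY⟩)
          have h5 := wt_inter_union W a (W \ M) (W \ Y)
          have h6 : wt W a ((W \ M) ∪ (W \ Y)) ≤ ∑ x ∈ W, a x := by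
            rw [← wt_self W a]
            exact wt_mono W a (Finset.union_subset Finset.sdiff_subset Finset.sdiff_subset)
          have h7 : (W \ M) ∩ (W \ Y) = ∅ := by
            rw [← Finset.sdiff_union_distrib, hU, Finset.sdiff_self]
          have h8 : wt W a ((W \ M) ∩ (W \ Y)) = 0 := by
            rw [h7]
            unfold wt
            simp
          omega
        · have h1 := dIn_submod W m M Y
          have h2 := wt_inter_union W b M Y
          have h3 := hin (M ∩ Y) (Finset.inter_subset_left.trans hMW)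
            ⟨t, Finset.mem_inter.mpr ⟨htM, htY⟩⟩ (by
              intro h
              apply hMne
              apply Finset.Subset.antisymm hMW
              rw [← h]
              exact Finset.inter_subset_left)
          have h4 := hin (M ∪ Y) (Finset.union_subset hMW hYW)
            ⟨t, Finset.mem_union_left _ htM⟩ hU
          have h5 : tight (M ∪ Y) := ⟨hU, Finset.mem_union_left _ htM, Or.inl (by omega)⟩
          have h6 := hmax' (M ∪ Y) (Finset.union_subset hMW hYW) h5
          have h7 := hMcard (M ∪ Y) Finset.subset_union_left u (Finset.mem_union_right _ huY) huM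
          omega
      · -- `M` in-tight, `Y` out-tight
        have h1 := cross W m M Y
        have h2 := cross_wt W b M Y
        have h3 := cross_wt W a Y M
        by_cases hMY : M ⊆ Y
        · have h6 := hmax' Y hYW ⟨hYne, htY, Or.inr hYt⟩
          have h7 := hMcard Y hMY u huY huM
          omega
        · have h4 := hin (M \ Y) (Finset.sdiff_subset.trans hMW)
            (Finset.sdiff_nonempty.mpr hMY) (by
              intro h
              have : t ∈ M \ Y := by rw [h]; exact ht
              exact (Finset.mem_sdiff.mp this).2 htY)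
          have h5 := hout (Y \ M) (Finset.sdiff_subset.trans hYW)
            ⟨u, Finset.mem_sdiff.mpr ⟨huY, huM⟩⟩ (by
              intro h
              have : t ∈ Y \ M := by rw [h]; exact ht
              exact (Finset.mem_sdiff.mp this).2 htM)
          have h6 := hbt' (M ∩ Y) (Finset.mem_inter.mpr ⟨htM, htY⟩)
          omega
    -- no arc from outside `M` to the special vertex
    have hA1 := hout (W \ M) Finset.sdiff_subset hAne hAne'
    rw [← dIn_eq W m hMW] at hA1
    have h1 : wt W a (W \ M) = 0 := by
      unfold wt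
      refine Finset.sum_eq_zero fun x hx => ?_
      by_cases h2 : x ∈ M
      · simp [h2]
      · have h3 : a x = 0 := by
          by_contra h
          exact h2 (hall x hx (Nat.pos_of_ne_zero h))
        simp [h3]
    have h2 := hbt' M htM
    omega
  · -- `M` is tight for the out-degree
    have hall : ∀ u ∈ W, 0 < a u → u ∈ M := by
      intro u hu hau
      by_contra huM
      obtain ⟨Y, hYW, ⟨hYne, htY, hYt⟩, huY⟩ := htight u hu hau
      rcases hYt with hYt | hYt
      · -- `Y` in-tight, `M` out-tight
        have h1 := cross W m Y M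
        have h2 := cross_wt W b Y M
        have h3 := cross_wt W a M Y
        by_cases hMY : M ⊆ Y
        · have h6 := hmax' Y hYW ⟨hYne, htY, Or.inl hYt⟩
          have h7 := hMcard Y hMY u huY huM
          omega
        · have h4 := hout (M \ Y) (Finset.sdiff_subset.trans hMW)
            (Finset.sdiff_nonempty.mpr hMY) (by
              intro h
              have : t ∈ M \ Y := by rw [h]; exact ht
              exact (Finset.mem_sdiff.mp this).2 htY)
          have h5 := hin (Y \ M) (Finset.sdiff_subset.trans hYW)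
            ⟨u, Finset.mem_sdiff.mpr ⟨huY, huM⟩⟩ (by
              intro h
              have : t ∈ Y \ M := by rw [h]; exact ht
              exact (Finset.mem_sdiff.mp this).2 htM)
          have h6 := hbt' (Y ∩ M) (Finset.mem_inter.mpr ⟨htY, htM⟩)
          omega
      · -- both out-tight
        by_cases hU : M ∪ Y = W
        · have hA1 := hin (W \ M) Finset.sdiff_subset hAne hAne'
          have hBne : (W \ Y).Nonempty := by
            rw [Finset.sdiff_nonempty]
            intro h
            exact hYne (Finset.Subset.antisymm hYW h)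
          have hBne' : W \ Y ≠ W := by
            intro h
            have : t ∈ W \ Y := by rw [h]; exact ht
            exact (Finset.mem_sdiff.mp this).2 htY
          have hB1 := hin (W \ Y) Finset.sdiff_subset hBne hBne'
          rw [← dOut_eq W m hMW] at hA1
          rw [← dOut_eq W m hYW] at hB1
          have h1 : wt W a M ≤ wt W b (W \ M) := by omega
          have h2 : wt W a Y ≤ wt W b (W \ Y) := by omega
          have h3 := wt_inter_union W a M Y
          rw [hU, wt_self] at h3
          have h4 := hbt' (M ∩ Y) (Finset.mem_inter.mpr ⟨htM, htY⟩)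
          have h5 := wt_sdiff W b M
          have h6 := wt_sdiff W b Y
          have h7 := wt_inter_union W b M Y
          rw [hU, wt_self] at h7
          omega
        · have h1 := dOut_submod W m M Y
          have h2 := wt_inter_union W a M Y
          have h3 := hout (M ∩ Y) (Finset.inter_subset_left.trans hMW)
            ⟨t, Finset.mem_inter.mpr ⟨htM, htY⟩⟩ (by
              intro h
              apply hMne
              apply Finset.Subset.antisymm hMW
              rw [← h]
              exact Finset.inter_subset_left)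
          have h4 := hout (M ∪ Y) (Finset.union_subset hMW hYW)
            ⟨t, Finset.mem_union_left _ htM⟩ hU
          have h5 : tight (M ∪ Y) := ⟨hU, Finset.mem_union_left _ htM, Or.inr (by omega)⟩
          have h6 := hmax' (M ∪ Y) (Finset.union_subset hMW hYW) h5
          have h7 := hMcard (M ∪ Y) Finset.subset_union_left u (Finset.mem_union_right _ huY) huM
          omega
    have hA1 := hin (W \ M) Finset.sdiff_subset hAne hAne'
    rw [← dOut_eq W m hMW] at hA1
    have h1 : wt W a (W \ M) = 0 := by
      unfold wt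
      refine Finset.sum_eq_zero fun x hx => ?_
      by_cases h2 : x ∈ M
      · simp [h2]
      · have h3 : a x = 0 := by
          by_contra h
          exact h2 (hall x hx (Nat.pos_of_ne_zero h))
        simp [h3]
    have h2 := hbt' M htM
    have h3 := wt_sdiff W a M
    have h4 := wt_sdiff W b M
    omega

theorem dOut_add (W : Finset V) (m m' : V → V → ℕ) (X : Finset V) :
    dOut W (fun x y => m x y + m' x y) X = dOut W m X + dOut W m' X := by
  unfold dOut
  simp only [← Finset.sum_add_distrib]
  refine Finset.sum_congr rfl fun x _ => Finset.sum_congr rfl fun y _ => ?_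
  by_cases h : x ∈ X ∧ y ∉ X <;> simp [h]

theorem dIn_add (W : Finset V) (m m' : V → V → ℕ) (X : Finset V) :
    dIn W (fun x y => m x y + m' x y) X = dIn W m X + dIn W m' X := by
  unfold dIn
  simp only [← Finset.sum_add_distrib]
  refine Finset.sum_congr rfl fun x _ => Finset.sum_congr rfl fun y _ => ?_
  by_cases h : x ∉ X ∧ y ∈ X <;> simp [h]

/-- one arc from `u` to `t` -/
def one2 (u t : V) : V → V → ℕ := fun x y => if x = u ∧ y = t then 1 else 0

/-- one arc at `u` -/
def one1 (u : V) : V → ℕ := fun x => if x = u then 1 else 0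

theorem dOut_one {W : Finset V} {u t : V} (hu : u ∈ W) (ht : t ∈ W) (X : Finset V) :
    dOut W (one2 u t) X = if u ∈ X ∧ t ∉ X then 1 else 0 := by
  unfold dOut one2
  rw [Finset.sum_eq_single u, Finset.sum_eq_single t]
  · simp
  · intro y _ hy
    simp [hy]
  · exact fun h => absurd ht h
  · intro x _ hx
    exact Finset.sum_eq_zero fun y _ => by simp [hx]
  · exact fun h => absurd hu h

theorem dIn_one {W : Finset V} {u t : V} (hu : u ∈ W) (ht : t ∈ W) (X : Finset V) :
    dIn W (one2 u t) X = if u ∉ X ∧ t ∈ X then 1 else 0 := by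
  unfold dIn one2
  rw [Finset.sum_eq_single u, Finset.sum_eq_single t]
  · simp
  · intro y _ hy
    simp [hy]
  · exact fun h => absurd ht h
  · intro x _ hx
    exact Finset.sum_eq_zero fun y _ => by simp [hx]
  · exact fun h => absurd hu h

theorem wt_one {W : Finset V} {u : V} (hu : u ∈ W) (X : Finset V) :
    wt W (one1 u) X = if u ∈ X then 1 else 0 := by
  unfold wt one1
  rw [Finset.sum_eq_single u]
  · simp
  · intro x _ hx
    simp [hx]
  · exact fun h => absurd hu h

theorem sum_one {W : Finset V} {u : V} (hu : u ∈ W) : ∑ x ∈ W, one1 u x = 1 := by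
  unfold one1
  rw [Finset.sum_eq_single u]
  · simp
  · intro x _ hx
    simp [hx]
  · exact fun h => absurd hu h

theorem wt_add (W : Finset V) (a a' : V → ℕ) (X : Finset V) :
    wt W (fun x => a x + a' x) X = wt W a X + wt W a' X := by
  unfold wt
  simp only [← Finset.sum_add_distrib]
  refine Finset.sum_congr rfl fun x _ => ?_
  by_cases h : x ∈ X <;> simp [h]

/-- subtracting one arc -/
theorem sub_one1 {a : V → ℕ} {u : V} (h : 0 < a u) :
    (fun x => (a x - one1 u x) + one1 u x) = a := by
  funext x
  unfold one1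
  by_cases hx : x = u
  · subst hx
    simp
    omega
  · simp [hx]

/-- Complete splitting off (Mader). -/
theorem split (k : ℕ) (W : Finset V) : ∀ (n : ℕ) (m : V → V → ℕ) (a b : V → ℕ),
    ∑ x ∈ W, a x = n → ∑ x ∈ W, b x = n →
    (∀ X ⊆ W, X.Nonempty → X ≠ W → k ≤ dIn W m X + wt W b X) →
    (∀ X ⊆ W, X.Nonempty → X ≠ W → k ≤ dOut W m X + wt W a X) →
    ∃ w : V → V → ℕ, (∀ x ∈ W, ∑ y ∈ W, w x y = a x) ∧ (∀ y ∈ W, ∑ x ∈ W, w x y = b y) ∧
      CutConn k W (fun x y => m x y + w x y) := by
  intro n
  induction n with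
  | zero =>
    intro m a b ha hb _ hout
    have ha' : ∀ x ∈ W, a x = 0 := Finset.sum_eq_zero_iff.mp ha
    have hb' : ∀ x ∈ W, b x = 0 := Finset.sum_eq_zero_iff.mp hb
    refine ⟨fun _ _ => 0, ?_, ?_, ?_⟩
    · intro x hx
      rw [ha' x hx]
      simp
    · intro x hx
      rw [hb' x hx]
      simp
    · intro X hX h1 h2
      have h3 := hout X hX h1 h2
      have h4 : wt W a X = 0 := by
        unfold wt
        exact Finset.sum_eq_zero fun x hx => by simp [ha' x hx]
      rw [h4] at h3
      simpa using h3
  | succ n ih =>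
    intro m a b ha hb hin hout
    obtain ⟨t, ht, hbt⟩ : ∃ t ∈ W, 0 < b t := by
      by_contra h
      push Not at h
      have : ∑ x ∈ W, b x = 0 := Finset.sum_eq_zero fun x hx => by have := h x hx; omega
      omega
    obtain ⟨u, hu, hau, hgood⟩ := exists_pair k W m a b (by rw [ha, hb]) hin hout t ht hbt
    set a' : V → ℕ := fun x => a x - one1 u x with ha'
    set b' : V → ℕ := fun x => b x - one1 t x with hb'
    have haa : (fun x => a' x + one1 u x) = a := sub_one1 hau
    have hbb : (fun x => b' x + one1 t x) = b := sub_one1 hbt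
    have hwa : ∀ X, wt W a X = wt W a' X + if u ∈ X then 1 else 0 := by
      intro X
      rw [← wt_one hu X, ← wt_add, haa]
    have hwb : ∀ X, wt W b X = wt W b' X + if t ∈ X then 1 else 0 := by
      intro X
      rw [← wt_one ht X, ← wt_add, hbb]
    have hsa : ∑ x ∈ W, a' x = n := by
      have h1 : ∑ x ∈ W, a x = ∑ x ∈ W, (a' x + one1 u x) := by rw [← haa]
      rw [Finset.sum_add_distrib, sum_one hu] at h1
      omega
    have hsb : ∑ x ∈ W, b' x = n := by
      have h1 : ∑ x ∈ W, b x = ∑ x ∈ W, (b' x + one1 t x) := by rw [← hbb]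
      rw [Finset.sum_add_distrib, sum_one ht] at h1
      omega
    obtain ⟨w, hw1, hw2, hw3⟩ := ih (fun x y => m x y + one2 u t x y) a' b' hsa hsb (by
      intro X hX h1 h2
      rw [dIn_add, dIn_one hu ht]
      have h3 := hin X hX h1 h2
      rw [hwb X] at h3
      by_cases hu' : u ∈ X <;> by_cases ht' : t ∈ X
      · have h4 := (hgood X hX h2 hu' ht').1
        rw [hwb X] at h4
        simp [hu', ht'] at h3 h4 ⊢
        omega
      · simp [hu', ht'] at h3 ⊢
        omega
      · simp [hu', ht'] at h3 ⊢
        omega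
      · simp [hu', ht'] at h3 ⊢
        omega) (by
      intro X hX h1 h2
      rw [dOut_add, dOut_one hu ht]
      have h3 := hout X hX h1 h2
      rw [hwa X] at h3
      by_cases hu' : u ∈ X <;> by_cases ht' : t ∈ X
      · have h4 := (hgood X hX h2 hu' ht').2
        rw [hwa X] at h4
        simp [hu', ht'] at h3 h4 ⊢
        omega
      · simp [hu', ht'] at h3 ⊢
        omega
      · simp [hu', ht'] at h3 ⊢
        omega
      · simp [hu', ht'] at h3 ⊢
        omega)
    refine ⟨fun x y => w x y + one2 u t x y, ?_, ?_, ?_⟩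
    · intro x hx
      rw [Finset.sum_add_distrib, hw1 x hx]
      have h1 : ∑ y ∈ W, one2 u t x y = one1 u x := by
        unfold one2 one1
        by_cases h : x = u
        · simp [h, ht]
        · simp [h]
      rw [h1]
      exact congrFun haa x
    · intro y hy
      rw [Finset.sum_add_distrib, hw2 y hy]
      have h1 : ∑ x ∈ W, one2 u t x y = one1 t y := by
        unfold one2 one1
        by_cases h : y = t
        · simp [h, hu]
        · simp [h]
      rw [h1]
      exact congrFun hbb y
    · intro X hX h1 h2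
      have h3 := hw3 X hX h1 h2
      rw [dOut_add, dOut_add] at h3
      rw [dOut_add, dOut_add]
      omega

end Pool.Agent.Lib.MP_ce98c0_co
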