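import Pool.Agent.Lib.MP_ce98c0_co.Defs
import Pool.Agent.Lib.MP_ce98c0_co.Induct

/-!
# MP_ce98c0_co: tree decompositions have simplicial vertices
-/

set_option autoImplicit false

namespace Pool.Agent.Lib.MP_ce98c0_co

open SimpleGraph

variable {V A : Type*}

/-- Tree decompositions have simplicial vertices. -/
theorem simp_of_tree [DecidableEq V] {ι : Type*} (G : SimpleGraph ι) (hG : G.IsTree) (bag : ι → Set V)
    (hv : ∀ v : V, ∃ i, v ∈ bag i)
    (hp : ∀ (i j : ι) (p : G.Walk i j), p.IsPath → ∀ l ∈ p.support, bag i ∩ bag j ⊆ bag l) :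
    Simp bag := by
  classical
  obtain ⟨r⟩ := hG.1.nonempty
  -- the path from the root
  choose P hP hPu using fun i => (hG.existsUnique_path r i)
  have hlen : ∀ (i : ι) (p : G.Walk r i), p.IsPath → p = P i := fun i p h => hPu i p h
  -- on the path
  have hle : ∀ i x, x ∈ (P i).support → x ≠ i → (P x).length < (P i).length := by
    intro i x hx hne
    have h1 : ((P i).takeUntil x hx).IsPath := (hP i).takeUntil hx
    rw [← hlen x _ h1]
    exact SimpleGraph.Walk.length_takeUntil_lt_length hx hne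
  -- the top node of a vertex
  have htop : ∀ v : V, ∃ i, v ∈ bag i ∧ ∀ j, v ∈ bag j → (P i).length ≤ (P j).length := by
    intro v
    have hex : ∃ n, ∃ i, v ∈ bag i ∧ (P i).length = n := by
      obtain ⟨i, hi⟩ := hv v
      exact ⟨_, i, hi, rfl⟩
    obtain ⟨i, hi, hin⟩ := Nat.find_spec hex
    refine ⟨i, hi, fun j hj => ?_⟩
    rw [hin]
    exact Nat.find_min' hex ⟨j, hj, rfl⟩
  choose g hg1 hg2 using htop
  -- the path to a node containing `v` passes through the top node of `v`
  have hpath : ∀ (v : V) (j : ι), v ∈ bag j → ∃ q : G.Walk (g v) j, q.IsPath ∧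
      ((P (g v)).append q).IsPath := by
    intro v j hj
    obtain ⟨q, hq, -⟩ := hG.existsUnique_path (g v) j
    refine ⟨q, hq, ?_⟩
    rw [SimpleGraph.Walk.isPath_def, SimpleGraph.Walk.support_append, List.nodup_append]
    refine ⟨(SimpleGraph.Walk.isPath_def _).mp (hP _), ?_, ?_⟩
    · exact ((SimpleGraph.Walk.isPath_def _).mp hq).tail
    · intro x hx y hy hxy
      subst hxy
      have h1 : x ∈ q.support := List.mem_of_mem_tail hy
      have h2 : v ∈ bag x := hp _ _ q hq x h1 ⟨hg1 v, hj⟩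
      have h3 : x ≠ g v := by
        rintro rfl
        have h4 := (SimpleGraph.Walk.isPath_def _).mp hq
        rw [← SimpleGraph.Walk.cons_tail_support, List.nodup_cons] at h4
        exact h4.1 hy
      have h5 := hle (g v) x hx h3
      have h6 := hg2 v x h2
      omega
  intro W hW
  obtain ⟨v, hvW, hvmax⟩ := Finset.exists_max_image W (fun v => (P (g v)).length) hW
  refine ⟨v, hvW, g v, hg1 v, ?_⟩
  rintro u huW ⟨j, huj, hvj⟩
  obtain ⟨q, hq, hpq⟩ := hpath v j hvj
  obtain ⟨q', hq', hpq'⟩ := hpath u j huj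
  have heq : (P (g v)).append q = (P (g u)).append q' := by
    rw [hlen j _ hpq, hlen j _ hpq']
  have hmem : g v ∈ ((P (g u)).append q').support := by
    rw [← heq, SimpleGraph.Walk.mem_support_append_iff]
    exact Or.inl (SimpleGraph.Walk.end_mem_support _)
  rw [SimpleGraph.Walk.mem_support_append_iff] at hmem
  rcases hmem with h | h
  · by_cases hne : g v = g u
    · rw [hne]; exact hg1 u
    · have h1 := hle (g u) (g v) h hne
      have h2 := hvmax u huW
      beta_reduce at h2
      omega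
  · exact hp _ _ q' hq' (g v) h ⟨hg1 u, huj⟩

/-- the number of arcs from `x` to `y` -/
noncomputable def mult [Fintype A] (src tgt : A → V) [DecidableEq V] : V → V → ℕ := fun x y =>
  (Finset.univ.filter fun a : A => src a = x ∧ tgt a = y).card

theorem cutConn_of_arcConnected [Fintype V] [Fintype A] [DecidableEq V] {k : ℕ} (hk : 1 ≤ k)
    {src tgt : A → V} (h : ArcConnected k src tgt) : CutConn k Finset.univ (mult src tgt) := by
  classical
  intro X _ hX hX'
  by_contra hcon
  push Not at hcon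
  set F : Finset A := Finset.univ.filter fun a => src a ∈ X ∧ tgt a ∉ X with hF
  have hFc : F.card = dOut Finset.univ (mult src tgt) X := by
    have h1 : F.card = ∑ p : V × V, (F.filter fun a => (src a, tgt a) = p).card := by
      rw [Finset.card_eq_sum_card_fiberwise (f := fun a => (src a, tgt a)) (t := Finset.univ)]
      exact fun a _ => Finset.mem_univ _
    rw [h1, ← Finset.univ_product_univ, Finset.sum_product]
    unfold dOut mult
    refine Finset.sum_congr rfl fun x _ => Finset.sum_congr rfl fun y _ => ?_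
    split_ifs with hxy
    · congr 1
      ext a
      simp only [hF, Finset.mem_filter, Finset.mem_univ, true_and, Prod.mk.injEq]
      constructor
      · exact fun h => h.2
      · rintro ⟨rfl, rfl⟩
        exact ⟨hxy, rfl, rfl⟩
    · rw [Finset.card_eq_zero, Finset.filter_eq_empty_iff]
      intro a ha
      rw [hF, Finset.mem_filter] at ha
      rw [Prod.mk.injEq]
      rintro ⟨rfl, rfl⟩
      exact hxy ha.2
  have h2 := h F (by omega)
  obtain ⟨x, hx⟩ := hX
  obtain ⟨y, hy⟩ : ∃ y, y ∉ X := by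
    by_contra hall
    push Not at hall
    exact hX' (Finset.eq_univ_iff_forall.mpr hall)
  have h3 : ∀ z, Relation.ReflTransGen (fun x y => ∃ a ∈ {a | a ∉ F}, src a = x ∧ tgt a = y) x z → z ∈ X := by
    intro z hz
    induction hz with
    | refl => exact hx
    | tail _ hstep ih =>
      obtain ⟨a, ha, rfl, rfl⟩ := hstep
      by_contra hne
      exact ha (Finset.mem_filter.mpr ⟨Finset.mem_univ _, ih, hne⟩)
  exact hy (h3 y (h2 x y))

/-- From cuts to strong connectivity. -/
theorem strong_of_cuts [Fintype V] {src tgt : A → V} {S : Set A}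
    (h : ∀ X : Finset V, X.Nonempty → X ≠ Finset.univ → ∃ a ∈ S, src a ∈ X ∧ tgt a ∉ X) :
    StronglyConnected src tgt S := by
  classical
  intro u v
  by_contra hcon
  set X : Finset V := Finset.univ.filter fun z =>
    Relation.ReflTransGen (fun x y => ∃ a ∈ S, src a = x ∧ tgt a = y) u z with hX
  have hu : u ∈ X := Finset.mem_filter.mpr ⟨Finset.mem_univ _, Relation.ReflTransGen.refl⟩
  obtain ⟨a, ha, h1, h2⟩ := h X ⟨u, hu⟩ (by
    intro hall
    have : v ∈ X := by rw [hall]; exact Finset.mem_univ _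
    exact hcon (Finset.mem_filter.mp this).2)
  apply h2
  rw [hX, Finset.mem_filter] at h1 ⊢
  exact ⟨Finset.mem_univ _, h1.2.tail ⟨a, ha, rfl, rfl⟩⟩

/-- From cuts to weak connectivity. -/
theorem weak_of_cuts [Fintype V] {src tgt : A → V} {S : Set A}
    (h : ∀ X : Finset V, X.Nonempty → X ≠ Finset.univ →
      ∃ a ∈ S, (src a ∈ X ∧ tgt a ∉ X) ∨ (tgt a ∈ X ∧ src a ∉ X)) :
    WeaklyConnected src tgt S := by
  classical
  intro u v
  by_contra hcon
  set X : Finset V := Finset.univ.filter fun z => Relation.ReflTransGen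
    (fun x y => ∃ a ∈ S, (src a = x ∧ tgt a = y) ∨ (src a = y ∧ tgt a = x)) u z with hX
  have hu : u ∈ X := Finset.mem_filter.mpr ⟨Finset.mem_univ _, Relation.ReflTransGen.refl⟩
  obtain ⟨a, ha, h1⟩ := h X ⟨u, hu⟩ (by
    intro hall
    have : v ∈ X := by rw [hall]; exact Finset.mem_univ _
    exact hcon (Finset.mem_filter.mp this).2)
  rcases h1 with ⟨h1, h2⟩ | ⟨h1, h2⟩
  · apply h2
    rw [hX, Finset.mem_filter] at h1 ⊢
    exact ⟨Finset.mem_univ _, h1.2.tail ⟨a, ha, Or.inl ⟨rfl, rfl⟩⟩⟩
  · apply h2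
    rw [hX, Finset.mem_filter] at h1 ⊢
    exact ⟨Finset.mem_univ _, h1.2.tail ⟨a, ha, Or.inr ⟨rfl, rfl⟩⟩⟩

/-- From `Good` to a decomposition. -/
theorem decomposable_of_good [Fintype V] [Fintype A] [DecidableEq V] {src tgt : A → V}
    (h : Good Finset.univ (mult src tgt) id) : Decomposable src tgt := by
  classical
  obtain ⟨T, hT1, hT2, hT3⟩ := h
  have hex : ∀ x y : V, ∃ a : Option A, T x y → ∃ b, a = some b ∧ src b = x ∧ tgt b = y := by
    intro x y
    by_cases hxy : T x y
    · obtain ⟨-, -, -, h1⟩ := hT1 x y hxy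
      unfold mult at h1
      obtain ⟨a, ha⟩ := Finset.card_pos.mp h1
      rw [Finset.mem_filter] at ha
      exact ⟨some a, fun _ => ⟨a, rfl, ha.2⟩⟩
    · exact ⟨none, fun h => absurd h hxy⟩
  choose e he using hex
  let A₂ : Set A := {a | T (src a) (tgt a) ∧ e (src a) (tgt a) = some a}
  refine ⟨A₂ᶜ, A₂, Set.compl_union_self A₂, Set.compl_inter_self A₂, ?_, ?_⟩
  · apply strong_of_cuts
    intro X hX hX'
    obtain ⟨x, hx, y, -, hyX, h1, h2⟩ := hT2 X (Finset.subset_univ X) hX hX'
    by_cases hxy : T x y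
    · obtain ⟨b, hb, -, -⟩ := he x y hxy
      have h3 := h2 hxy
      unfold mult at h3
      obtain ⟨a, ha, hab⟩ := Finset.exists_mem_ne (show 1 < _ from h3) b
      rw [Finset.mem_filter] at ha
      obtain ⟨-, rfl, rfl⟩ := ha
      refine ⟨a, ?_, hx, hyX⟩
      rintro ⟨-, h4⟩
      rw [hb] at h4
      exact hab (Option.some.inj h4).symm
    · unfold mult at h1
      obtain ⟨a, ha⟩ := Finset.card_pos.mp h1
      rw [Finset.mem_filter] at ha
      obtain ⟨-, rfl, rfl⟩ := ha
      exact ⟨a, fun h4 => hxy h4.1, hx, hyX⟩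
  · apply weak_of_cuts
    intro X hX hX'
    obtain ⟨x, hx, y, -, hyX, h1⟩ := hT3 X (Finset.subset_univ X) hX hX' (by
      intro x _ y _ hxy
      rw [show x = y from hxy])
    rcases h1 with h1 | h1
    · obtain ⟨b, hb, rfl, rfl⟩ := he x y h1
      exact ⟨b, ⟨h1, hb⟩, Or.inl ⟨hx, hyX⟩⟩
    · obtain ⟨b, hb, rfl, rfl⟩ := he y x h1
      exact ⟨b, ⟨h1, hb⟩, Or.inr ⟨hx, hyX⟩⟩

end Pool.Agent.Lib.MP_ce98c0_co
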