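import Pool.Agent.Lib.MP_ce98c0_co.Tree

/-!
# MP_ce98c0_co: digraphs of bounded tree-independence number

If the underlying graph of a `(t + 2)^5`-arc-connected digraph has a tree decomposition in which every bag contains
at most `t` pairwise non-adjacent vertices, then the arcs can be partitioned into a strongly connected and a weakly
connected spanning sub-digraph.  (Bounded treewidth, bounded independence number and chordal underlying graphs are
special cases.)
-/

set_option autoImplicit false

namespace Pool.Agent.Lib.MP_ce98c0_co.Weaker.TreeIndependence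

open Pool.Agent.Lib.MP_ce98c0_co

theorem RN_succ (s t : ℕ) : RN (s + 1) (t + 1) = 2 * RN s (t + 1) + RN (s + 1) t + 1 := by
  rw [RN]

theorem RN_one (t : ℕ) : RN 1 t = t + 1 := by
  induction t with
  | zero => simp [RN]
  | succ t ih =>
    rw [RN_succ 0 t, ih]
    simp [RN]

theorem RN_two (t : ℕ) : RN 2 t = t ^ 2 + 4 * t + 1 := by
  induction t with
  | zero => simp [RN]
  | succ t ih =>
    rw [RN_succ 1 t, ih, RN_one]
    ring

theorem RN_three (t : ℕ) : RN 3 t ≤ (t + 2) ^ 3 := by
  induction t with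
  | zero => simp [RN]
  | succ t ih =>
    rw [RN_succ 2 t, RN_two]
    nlinarith

theorem RN_four (t : ℕ) : RN 4 t ≤ (t + 2) ^ 4 := by
  induction t with
  | zero => simp [RN]
  | succ t ih =>
    rw [RN_succ 3 t]
    have h := RN_three (t + 1)
    have h2 : (t + 1 + 2) ^ 4 = (t + 2) ^ 4 + 4 * (t + 2) ^ 3 + 6 * (t + 2) ^ 2 + 4 * (t + 2) + 1 := by
      ring
    have h3 : (t + 1 + 2) ^ 3 = (t + 2) ^ 3 + 3 * (t + 2) ^ 2 + 3 * (t + 2) + 1 := by ring
    have h4 : (t + 2) ^ 3 = (t + 2) ^ 2 * (t + 2) := by ring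
    nlinarith [Nat.zero_le ((t + 2) ^ 2 * t), Nat.zero_le (t ^ 2)]

/-- Digraphs with bounded tree-independence number. -/
theorem result (t : ℕ) (V A : Type) [Finite V] [Finite A] (src tgt : A → V)
    (hk : ArcConnected ((t + 2) ^ 5) src tgt)
    (hD : ∃ D : TreeDecomposition src tgt, ∀ (i : D.node) (S : Finset V),
      (∀ v ∈ S, v ∈ D.bag i) → Independent src tgt S → S.card ≤ t) :
    Decomposable src tgt := by
  classical
  have := Fintype.ofFinite V
  have := Fintype.ofFinite A
  obtain ⟨D, hD⟩ := hD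
  rcases isEmpty_or_nonempty V with hV | hV
  · exact ⟨Set.univ, ∅, by simp, by simp, fun u => (hV.false u).elim, fun u => (hV.false u).elim⟩
  apply decomposable_of_good
  have hB : Simp D.bag := simp_of_tree D.tree D.isTree D.bag D.vertex_mem D.path_mem
  have hnum : (RN 4 t - 1) * t + 1 ≤ (t + 2) ^ 5 := by
    have h1 := RN_four t
    have h2 : (RN 4 t - 1) * t ≤ (t + 2) ^ 4 * t := Nat.mul_le_mul (by omega) le_rfl
    have h3 : (t + 2) ^ 5 = (t + 2) ^ 4 * t + 2 * (t + 2) ^ 4 := by ring
    have h4 : 0 < (t + 2) ^ 4 := by positivity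
    omega
  refine main_alpha t ((t + 2) ^ 5) hnum D.bag hB _ Finset.univ (mult src tgt) id le_rfl
    Finset.univ_nonempty (cutConn_of_arcConnected (Nat.one_le_pow _ _ (by omega)) hk) ?_ ?_
  · intro x _ y _ _ h
    unfold mult at h
    obtain ⟨a, ha⟩ := Finset.card_pos.mp h
    rw [Finset.mem_filter] at ha
    obtain ⟨-, rfl, rfl⟩ := ha
    exact D.arc_mem a
  · intro i S _ hS h
    apply hD i S hS
    intro a ha1 ha2
    by_contra hne
    have h1 := h _ ha1 _ ha2 hne
    unfold mult at h1
    rw [Finset.card_eq_zero, Finset.filter_eq_empty_iff] at h1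
    exact h1 (Finset.mem_univ a) ⟨rfl, rfl⟩

end Pool.Agent.Lib.MP_ce98c0_co.Weaker.TreeIndependence
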