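import Pool.Agent.Lib.MP_ce98c0_co.Tree

/-!
# MP_ce98c0_co: digraphs of treewidth less than `k`

Every `k`-arc-connected digraph whose underlying graph has treewidth less than `k` (`k = w + 1`, all bags have at
most `w + 1` vertices) has a decomposition into a strongly connected and a weakly connected spanning sub-digraph.
-/

set_option autoImplicit false

namespace Pool.Agent.Lib.MP_ce98c0_co.Weaker.Treewidth

open Pool.Agent.Lib.MP_ce98c0_co

/-- Digraphs whose treewidth is less than the arc-connectivity. -/
theorem result (w : ℕ) (V A : Type) [Finite V] [Finite A] (src tgt : A → V)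
    (hk : ArcConnected (w + 1) src tgt)
    (hD : ∃ D : TreeDecomposition src tgt, ∀ i : D.node, (D.bag i).ncard ≤ w + 1) :
    Decomposable src tgt := by
  classical
  have := Fintype.ofFinite V
  have := Fintype.ofFinite A
  obtain ⟨D, hD⟩ := hD
  rcases isEmpty_or_nonempty V with hV | hV
  · exact ⟨Set.univ, ∅, by simp, by simp, fun u => (hV.false u).elim, fun u => (hV.false u).elim⟩
  apply decomposable_of_good
  have hB : Simp D.bag := simp_of_tree D.tree D.isTree D.bag D.vertex_mem D.path_mem
  refine main_tw w (w + 1) le_rfl D.bag hB _ Finset.univ (mult src tgt) id le_rfl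
    Finset.univ_nonempty (cutConn_of_arcConnected (by omega) hk) ?_ ?_
  · intro x _ y _ _ h
    unfold mult at h
    obtain ⟨a, ha⟩ := Finset.card_pos.mp h
    rw [Finset.mem_filter] at ha
    obtain ⟨-, rfl, rfl⟩ := ha
    exact D.arc_mem a
  · intro i S _ hS
    refine le_trans ?_ (hD i)
    rw [← Set.ncard_coe_finset]
    exact Set.ncard_le_ncard (fun x hx => hS x hx) (Set.toFinite _)

end Pool.Agent.Lib.MP_ce98c0_co.Weaker.Treewidth
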